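import Pool.Agent.Helper3.FE.Free
import Pool.Agent.Helper3.FJ.Met

/-!
# Piecewise Euclidean complexes of dimension two with the link condition: definitions

The vertices have types `τ` (finite sets), one of the types of two adjacent vertices is smaller, and
below a vertex there is at most one vertex of each type. (The barycentric subdivisions of coloured
complexes have such types.) The groups preserve the types and the lengths.
-/

set_option autoImplicit false

namespace Pool.Agent.Helper13.GT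

open Relation Pool.Agent.Helper29.BA Pool.Agent.Helper29.PA Pool.Agent.Helper3.FJ
  Pool.Agent.Helper3.FJ.Cpx

section

variable {V : Type}

/-- Actions which preserve the lengths and the types. -/
structure ActsC (G : Type) [Group G] [MulAction G V] (X : Cpx V) (ℓ : V → V → ℝ)
    (τ : V → Finset ℕ) : Prop where
  acts : X.Acts G
  iso : ∀ (g : G) u v, ℓ (g • u) (g • v) = ℓ u v
  inv : ∀ (g : G) v, τ (g • v) = τ v

/-- Piecewise Euclidean complexes with the link condition and with types. -/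
structure Pe (X : Cpx V) (ℓ : V → V → ℝ) (τ : V → Finset ℕ) : Prop where
  met : X.Metric ℓ
  link : X.LinkCond ℓ
  cmp : ∀ u v, X.adj u v → τ u ⊂ τ v ∨ τ v ⊂ τ u
  un : ∀ u u' v, X.adj u v → X.adj u' v → τ u = τ u' → τ u ⊂ τ v → u = u'

/-- There are finitely many isometry classes of triangles and edges. -/
def Shapes (X : Cpx V) (ℓ : V → V → ℝ) : Prop :=
  {x : ℝ | ∃ u v, X.adj u v ∧ ℓ u v = x}.Finite

/-- The conditions on the group `R` (`N` is so large that `N` angles have sum larger than `2π`):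
stabilizers of edges are trivial or equal to the stabilizers of both ends, and the nontrivial
elements of the stabilizers of the vertices move the vertices of the links which they do not fix by
more than `N`. -/
structure NiceG (X : Cpx V) (ℓ : V → V → ℝ) (τ : V → Finset ℕ) (N : ℕ) (R : Type) [Group R]
    [MulAction R V] : Prop extends ActsC R X ℓ τ, Pe X ℓ τ where
  big : ∀ u v w, X.tri u v w → 4 * Real.pi < N * ang ℓ u v w
  rigid : ∀ x y, X.adj x y → Cpx.Fx R x y → ∀ r : R, r • x = x → r • y = y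
  far : ∀ (v : V) (r : R), r • v = v → ∀ n ≤ N, ∀ y : ℕ → V,
    (∀ i < n, X.tri v (y i) (y (i + 1))) → (∀ i ≤ n, ¬ Cpx.Fx R v (y i)) → y n = r • y 0 → r = 1

end

theorem Pe.ne {V : Type} {X : Cpx V} {ℓ : V → V → ℝ} {τ : V → Finset ℕ} (hP : Pe X ℓ τ) {u v : V}
    (h : X.adj u v) : τ u ≠ τ v := by
  intro h'
  rcases hP.cmp u v h with h1 | h1
  · rw [h'] at h1
    exact ssubset_irrefl _ h1
  · rw [h'] at h1
    exact ssubset_irrefl _ h1

theorem Pe.card_ne {V : Type} {X : Cpx V} {ℓ : V → V → ℝ} {τ : V → Finset ℕ} (hP : Pe X ℓ τ)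
    {u v : V} (h : X.adj u v) : (τ u).card ≠ (τ v).card := by
  rcases hP.cmp u v h with h1 | h1
  · exact (Finset.card_lt_card h1).ne
  · exact (Finset.card_lt_card h1).ne'

section quo

variable {V : Type} {X : Cpx V} {ℓ : V → V → ℝ} {τ : V → Finset ℕ} {R : Type} [Group R]
  [MulAction R V]

/-- The types of the quotient. -/
def tq (hA : ActsC R X ℓ τ) : QV R V → Finset ℕ :=
  Quotient.lift (s := vS R V) τ (by
    rintro x y ⟨g, rfl⟩
    exact (hA.inv g x).symm)

theorem tq_mk (hA : ActsC R X ℓ τ) (x : V) : tq hA (qv x) = τ x := rfl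

theorem t_eq (hA : ActsC R X ℓ τ) {x y : V} (h : (qv x : QV R V) = qv y) : τ x = τ y := by
  rw [← tq_mk hA, h, tq_mk]

/-- The quotient. -/
def quoC (hA : ActsC R X ℓ τ) (hP : Pe X ℓ τ) : Cpx (QV R V) where
  adj u v := ∃ x y, X.adj x y ∧ qv x = u ∧ qv y = v
  tri u v w := ∃ x y z, X.tri x y z ∧ qv x = u ∧ qv y = v ∧ qv z = w
  adj_symm := by
    rintro u v ⟨x, y, h, h1, h2⟩
    exact ⟨y, x, X.adj_symm _ _ h, h2, h1⟩
  adj_irrefl := by
    rintro u ⟨x, y, h, h1, h2⟩
    exact hP.ne h (t_eq hA (h1.trans h2.symm))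
  tri_rot := by
    rintro u v w ⟨x, y, z, h, h1, h2, h3⟩
    exact ⟨y, z, x, X.tri_rot _ _ _ h, h2, h3, h1⟩
  tri_flip := by
    rintro u v w ⟨x, y, z, h, h1, h2, h3⟩
    exact ⟨y, x, z, X.tri_flip _ _ _ h, h2, h1, h3⟩
  tri_adj := by
    rintro u v w ⟨x, y, z, h, h1, h2, h3⟩
    exact ⟨x, y, X.tri_adj _ _ _ h, h1, h2⟩

theorem qv_smul (g : R) (x : V) : (qv (g • x) : QV R V) = qv x := ((qv_eq R).2 ⟨g, rfl⟩).symm
/-- The quotient is simply connected. -/
theorem quoC_simplyConn (hA : ActsC R X ℓ τ) (hP : Pe X ℓ τ)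
    (hX : X.SimplyConn) (hR : Subgroup.closure {r : R | ∃ x : V, r • x = x} = ⊤) :
    (quoC hA hP).SimplyConn := by
  obtain ⟨⟨v₀⟩, hconn, hsc⟩ := hX
  refine ⟨⟨qv v₀⟩, ?_, ?_⟩
  · intro u v
    obtain ⟨x, rfl⟩ := Quotient.exists_rep u
    obtain ⟨y, rfl⟩ := Quotient.exists_rep v
    have := hconn x y
    induction this with
    | refl => exact ReflTransGen.refl
    | tail _ h4 ih => exact ih.tail ⟨_, _, h4, rfl, rfl⟩
  · intro H _ c hc
    let c' : V → V → H := fun x y => c (qv x) (qv y)
    have hcoc : X.Cocycle c' := ⟨fun u v h => hc.1 _ _ ⟨u, v, h, rfl, rfl⟩,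
      fun u v w h => hc.2 _ _ _ ⟨u, v, w, h, rfl, rfl, rfl⟩⟩
    obtain ⟨g, hg⟩ := hsc H c' hcoc
    have inv : ∀ (r : R) (x y : V), g (r • x) * (g x)⁻¹ = g (r • y) * (g y)⁻¹ := by
      intro r x y
      have := hconn x y
      induction this with
      | refl => rfl
      | @tail b e _ h4 ih =>
        rw [ih]
        have e1 := hg _ _ h4
        have e2 := hg _ _ (hA.acts.1 r _ _ h4)
        simp only [c', qv_smul] at e1 e2
        rw [e1] at e2
        have e3 : g e = g b * ((g b)⁻¹ * g e) := by group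
        rw [e3, e2]
        group
    let S : Subgroup R :=
      { carrier := {r | ∀ x, g (r • x) = g x}
        one_mem' := fun x => by rw [one_smul]
        mul_mem' := fun {a b} ha hb x => by rw [mul_smul, ha, hb]
        inv_mem' := fun {a} ha x => by
          have := ha (a⁻¹ • x)
          rwa [smul_inv_smul, eq_comm] at this }
    have hS : S = ⊤ := by
      rw [eq_top_iff, ← hR, Subgroup.closure_le]
      rintro r ⟨x, hx⟩ y
      have := inv r x y
      rw [hx, mul_inv_cancel, eq_comm, mul_inv_eq_one] at this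
      exact this
    let g' : QV R V → H := Quotient.lift (s := vS R V) g (by
      rintro x y ⟨r, rfl⟩
      have : r ∈ S := by rw [hS]; trivial
      exact (this x).symm)
    refine ⟨g', ?_⟩
    rintro u v ⟨x, y, h, rfl, rfl⟩
    exact hg _ _ h

/-- Two edges of the quotient with the same ends are equal. -/
theorem no_bigon (hA : ActsC R X ℓ τ) (hP : Pe X ℓ τ) {x y y' : V} (h : X.adj x y)
    (h' : X.adj x y') (hq : (qv y : QV R V) = qv y') : ∃ r : R, r • x = x ∧ r • y = y' := by
  rcases hP.cmp x y h with h1 | h1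
  · obtain ⟨r, rfl⟩ := (qv_eq R).1 hq
    refine ⟨r, ?_, rfl⟩
    refine hP.un _ _ _ (hA.acts.1 r _ _ h) h' (hA.inv r x) ?_
    rw [hA.inv, hA.inv]
    exact h1
  · have h2 := t_eq hA hq
    refine ⟨1, one_smul _ _, ?_⟩
    rw [one_smul]
    exact hP.un _ _ _ (X.adj_symm _ _ h) (X.adj_symm _ _ h') h2 h1

open Classical in
/-- The lengths of the edges of the quotient. -/
noncomputable def lq (X : Cpx V) (ℓ : V → V → ℝ) (R : Type) [Group R] [MulAction R V]
    (u v : QV R V) : ℝ :=
  if h : ∃ p : V × V, X.adj p.1 p.2 ∧ qv p.1 = u ∧ qv p.2 = v then ℓ h.choose.1 h.choose.2 else 1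

end quo

end Pool.Agent.Helper13.GT
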