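import Pool.Agent.Helper13.GT.Shp

/-!
# The free edge theorem for complexes with the link condition: statement

`F v w` means that the edge from `v` to `w` is fixed, a triangle is fixed if two of its edges are
fixed.
-/

set_option autoImplicit false

namespace Pool.Agent.Helper13.GT

open Relation Pool.Agent.Helper29.BA Pool.Agent.Helper29.PA Pool.Agent.Helper3.FJ
  Pool.Agent.Helper3.FJ.Cpx

/-- The fixed directions at a vertex are convex: a path without backtracking of length less than `π`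
in the link of `v` which joins two fixed directions consists of fixed directions. -/
def LConv {W : Type} (U : Cpx W) (ℓ : W → W → ℝ) (F : W → W → Prop) : Prop :=
  ∀ (v : W) (n : ℕ) (y : ℕ → W), (∀ i < n, U.tri v (y i) (y (i + 1))) →
    (∀ i, i + 1 < n → y i ≠ y (i + 2)) →
    ∑ i ∈ Finset.range n, ang ℓ v (y i) (y (i + 1)) < Real.pi → F v (y 0) → F v (y n) →
    ∀ i ≤ n, F v (y i)

/-- **The free edge theorem.** -/
def GeoU : Prop :=
  ∀ {W : Type} {U : Cpx W} {ℓ : W → W → ℝ} {F : W → W → Prop}, U.Metric ℓ → U.LinkCond ℓ →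
    Shapes U ℓ → U.SimplyConn → LConv U ℓ F →
    ∀ K : Set (W × W × W), K.Finite → K.Nonempty → (∀ a b c, (a, b, c) ∈ K → U.tri a b c) →
      (∀ a b c, (a, b, c) ∈ K → (b, c, a) ∈ K) → (∀ a b c, (a, b, c) ∈ K → (b, a, c) ∈ K) →
      ∃ a b c, (a, b, c) ∈ K ∧ (∀ d, (a, b, d) ∈ K → d = c) ∧ (F a b → F a c)

section

variable {V : Type} {X : Cpx V} {ℓ : V → V → ℝ} {τ : V → Finset ℕ} {N : ℕ} {R : Type} [Group R]
  [MulAction R V]

/-- The fixed edges of the quotient. -/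
def Fq (X : Cpx V) (R : Type) [Group R] [MulAction R V] (u v : QV R V) : Prop :=
  ∃ x y, X.adj x y ∧ qv x = u ∧ qv y = v ∧ Fx R x y

theorem fq_iff (hN : NiceG X ℓ τ N R) {x y : V} (h : X.adj x y) :
    Fq X R (qv x) (qv y) ↔ Fx R x y := by
  refine ⟨?_, fun h' => ⟨x, y, h, rfl, rfl, h'⟩⟩
  rintro ⟨x', y', h1, h2, h3, h4⟩
  obtain ⟨g, rfl⟩ := (qv_eq R).1 h2
  have h5 := hN.acts.1 g _ _ h1
  obtain ⟨r, h6, h7⟩ := no_bigon hN.toActsC hN.toPe h5 h ((qv_smul _ _).trans h3)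
  have h8 := (h4.smul g).smul r
  rwa [h6, h7] at h8

/-- The local conditions for the quotients of the links. -/
structure Loc (hN : NiceG X ℓ τ N R) : Prop where
  link : LinkQ X ℓ R
  /-- no bigons in the quotients of the links -/
  bi : ∀ a b c d, X.tri a b c → X.tri a b d → (qv c : QV R V) = qv d →
    ∃ s : R, s • a = a ∧ s • b = b ∧ s • c = d
  conv : LConv (quoC hN.toActsC hN.toPe) (lq X ℓ R) (Fq X R)

theorem shapes_quo (hA : ActsC R X ℓ τ) (hP : Pe X ℓ τ) (hS : Shapes X ℓ) :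
    Shapes (quoC hA hP) (lq X ℓ R) := by
  refine hS.subset ?_
  rintro _ ⟨u, v, ⟨x, y, h, rfl, rfl⟩, rfl⟩
  exact ⟨x, y, h, (lq_eq hA hP h).symm⟩

/-- Free edges. -/
theorem hasFree_of_geoU (geo : GeoU) (hN : NiceG X ℓ τ N R) (hL : Loc hN) (hS : Shapes X ℓ)
    (hX : X.SimplyConn) (hR : Subgroup.closure {r : R | ∃ x : V, r • x = x} = ⊤) :
    Pool.Agent.Helper3.FE.HasFree X R := by
  intro T h1 h2 h3 h4 h5 h6
  have hPe := quoC_pe hN.toActsC hN.toPe hL.link
  obtain ⟨S, hSf, hS'⟩ := h5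
  let K : Set (QV R V × QV R V × QV R V) := {t | ∃ a b c, T a b c ∧ (qv a, qv b, qv c) = t}
  have hKf : K.Finite := by
    refine (hSf.image fun s : V × V × V =>
      ((qv s.1, qv s.2.1, qv s.2.2) : QV R V × QV R V × QV R V)).subset ?_
    rintro _ ⟨a, b, c, ht, rfl⟩
    obtain ⟨g, hg⟩ := hS' _ _ _ ht
    exact ⟨_, hg, by simp only [qv_smul]⟩
  have hmem : ∀ {a b c}, T a b c → ((qv a, qv b, qv c) : QV R V × QV R V × QV R V) ∈ K :=
    fun {a b c} h => ⟨a, b, c, h, rfl⟩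
  obtain ⟨α, β, γ, hK, hu, hf⟩ := geo (F := Fq X R) hPe.met hPe.link
    (shapes_quo hN.toActsC hN.toPe hS)
    (quoC_simplyConn hN.toActsC hN.toPe hX hR) hL.conv K hKf
    (by obtain ⟨a, b, c, h⟩ := h6; exact ⟨_, hmem h⟩)
    (by
      rintro α β γ ⟨a, b, c, h, he⟩
      simp only [Prod.mk.injEq] at he
      obtain ⟨rfl, rfl, rfl⟩ := he
      exact ⟨a, b, c, h1 _ _ _ h, rfl, rfl, rfl⟩)
    (by
      rintro α β γ ⟨a, b, c, h, he⟩
      simp only [Prod.mk.injEq] at he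
      obtain ⟨rfl, rfl, rfl⟩ := he
      exact hmem (h2 _ _ _ h))
    (by
      rintro α β γ ⟨a, b, c, h, he⟩
      simp only [Prod.mk.injEq] at he
      obtain ⟨rfl, rfl, rfl⟩ := he
      exact hmem (h3 _ _ _ h))
  obtain ⟨a, b, c, h, he⟩ := hK
  simp only [Prod.mk.injEq] at he
  obtain ⟨rfl, rfl, rfl⟩ := he
  refine ⟨a, b, c, h, fun d hd => ?_⟩
  have e1 := hu _ (hmem hd)
  obtain ⟨s, e2, e3, e4⟩ := hL.bi a b c d (h1 _ _ _ h) (h1 _ _ _ hd) e1.symm
  have hab : X.adj a b := X.tri_adj _ _ _ (h1 _ _ _ h)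
  have hac : X.adj a c := X.adj_symm _ _ (adj3 (h1 _ _ _ h))
  by_cases hs : s = 1
  · rw [hs, one_smul] at e4
    exact e4.symm
  · have e5 : Fx R a b := ⟨s, hs, e2, e3⟩
    have e6 := (fq_iff hN hac).1 (hf ((fq_iff hN hab).2 e5))
    rw [← e4]
    exact hN.rigid a c hac e6 s e2

end

end Pool.Agent.Helper13.GT
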