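import Pool.Agent.Helper13.GT.GeoU
import Pool.Agent.Helper3.LT.Fin
import Pool.Agent.Helper13.LT.Cov

/-!
# Cocompact actions with infinite cyclic stabilizers
-/

set_option autoImplicit false

namespace Pool.Agent.Helper13.GT

open Relation Pool.Agent.Helper29.BA Pool.Agent.Helper29.PA Pool.Agent.Helper3.FJ
  Pool.Agent.Helper3.FJ.Cpx

/-- The local input: the link condition for the quotients of the links. -/
def LocInput : Prop :=
  ∀ {V : Type} {X : Cpx V} {ℓ : V → V → ℝ} {τ : V → Finset ℕ} {N : ℕ} {R : Type} [Group R]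
    [MulAction R V] (hN : NiceG X ℓ τ N R), Loc hN

section

variable {V : Type} {X : Cpx V} {ℓ : V → V → ℝ} {τ : V → Finset ℕ} {G : Type} [Group G]
  [MulAction G V]

/-- Cocompact actions with a homomorphism to the integers which is injective on the
stabilizers. -/
theorem int_memG (geo : GeoU) (loc : LocInput) {C : ∀ (G : Type) [Group G], Prop} (hE : ExtClass C)
    (hC : CatClass C) (hP : Pe X ℓ τ) (hX : X.SimplyConn) (hA : ActsC G X ℓ τ)
    (hco : X.Cocompact G) (f : G →* Multiplicative ℤ)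
    (hf : ∀ (v : V) (g : G), g • v = v → f g = 1 → g = 1) : C G := by
  obtain ⟨N, hNb⟩ := exists_big hP.met hA hco (4 * Real.pi)
  obtain ⟨κ₁, hκ₁, hdiv⟩ := exists_dvd hco f hf
  obtain ⟨B, hB⟩ := Pool.Agent.Helper3.LT.exists_boundN hA.acts hco f N
  have hf' : ∀ (v : V) (g : G), g • v = v → vl f g = 0 → g = 1 := fun v g h1 h2 =>
    hf v g h1 ((vl_eq_zero f).1 h2)
  obtain ⟨n, hn⟩ : ∃ n : ℕ, n = κ₁.natAbs * (B + 1) := ⟨_, rfl⟩
  have hn0 : n ≠ 0 := by
    rw [hn]
    exact Nat.mul_ne_zero (Int.natAbs_ne_zero.2 hκ₁) (Nat.succ_ne_zero _)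
  have hκn : κ₁ ∣ (n : ℤ) := by
    rw [hn, Nat.cast_mul, Int.natCast_natAbs]
    exact (dvd_abs _ _).2 dvd_rfl |>.mul_right _
  have hMn : B < n := by
    rw [hn]
    have : 1 ≤ κ₁.natAbs := Nat.one_le_iff_ne_zero.2 (Int.natAbs_ne_zero.2 hκ₁)
    nlinarith
  have hfi := dv_finiteIndex f n hn0
  refine hC.finiteIndex G (dv f n) hfi ?_
  obtain ⟨H, hH⟩ : ∃ H : Subgroup G, H = dv f n := ⟨_, rfl⟩
  rw [← hH] at hfi ⊢
  have hmem : ∀ g : H, (n : ℤ) ∣ vl f g.1 := fun g => mem_dv.1 (hH ▸ g.2)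
  have hA' : ActsC H X ℓ τ := hA.sub H
  -- the subgroup `R`
  have hN : NiceG X ℓ τ N (RR0 V H) := by
    refine ⟨hA'.sub _, hP, hNb, ?_, ?_⟩
    · rintro x y hxy ⟨s, hs1, hs2, hs3⟩ r hr
      obtain ⟨t, ht1, ht2, ht3, ht4⟩ := hdiv x y hxy ⟨s.1.1, fun h => hs1 (Subtype.ext
        (Subtype.ext h)), hs2, hs3⟩
      obtain ⟨m, hm⟩ := (ht4.trans hκn).trans (hmem r.1)
      have h1 : (t ^ m)⁻¹ * r.1.1 = 1 := by
        refine hf' x _ ?_ ?_
        · have h2 : (t ^ m) • x = x := by
            have : t ∈ MulAction.stabilizer G x := ht1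
            exact zpow_mem this m
          rw [mul_smul, inv_smul_eq_iff, h2]
          exact hr
        · rw [vl_mul, vl_inv, vl_zpow, hm]
          ring
      have h2 : r.1.1 = t ^ m := (inv_mul_eq_one.1 h1).symm
      have h3 : t ∈ MulAction.stabilizer G y := ht2
      change r.1.1 • y = y
      rw [h2]
      exact zpow_mem h3 m
    · intro v r hr j hj y h1 h2 h3
      have h4 : ∀ i ≤ j, ¬ Fx G v (y i) := by
        rintro i hi ⟨t, ht1, ht2, ht3⟩
        have h5 : t ^ n ∈ H := by
          rw [hH, mem_dv, ← zpow_natCast, vl_zpow]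
          exact dvd_mul_right _ _
        have h6 : (⟨t ^ n, h5⟩ : H) • v = v := by
          have : t ∈ MulAction.stabilizer G v := ht2
          exact pow_mem this n
        refine h2 i hi ⟨⟨⟨t ^ n, h5⟩, mem_RR0 _ v h6⟩, fun h7 => ht1 ?_, h6, ?_⟩
        · have h8 : t ^ n = 1 := congrArg (fun z : RR0 V H => z.1.1) h7
          have h9 := congrArg (vl f) h8
          rw [← zpow_natCast, vl_zpow, vl_one] at h9
          refine hf' v t ht2 ?_
          rcases mul_eq_zero.1 h9 with h10 | h10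
          · exact (hn0 (by exact_mod_cast h10)).elim
          · exact h10
        · have : t ∈ MulAction.stabilizer G (y i) := ht3
          exact pow_mem this n
      have h5 := hB v r.1.1 hr j hj y h1 h4 h3
      have h6 : vl f r.1.1 = 0 := by
        refine Int.eq_zero_of_abs_lt_dvd (hmem r.1) ?_
        rw [Int.abs_eq_natAbs]
        exact_mod_cast h5.trans_lt hMn
      exact Subtype.ext (Subtype.ext (hf' v _ hr h6))
  have hLc := loc hN
  have hFree := hasFree_of_geoU geo hN hLc (shapes_of hA hco) hX (RR0_gen V H)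
  have hR : C (RR0 V H) := Pool.Agent.Helper3.FE.mem_of_free (k := fun v => (τ v).card) hE hX
    hN.acts (fun g v => congrArg Finset.card (hN.inv g v)) (fun u v h => hP.card_ne h)
    hFree fun K => ⟨Multiplicative ℤ, _, (f.comp H.subtype).comp (RR0 V H).subtype, hC.int,
      fun v _ r h1 h2 => Subtype.ext (Subtype.ext (hf v _ h1 h2))⟩
  have hPe := quoC_pe hN.toActsC hP hLc.link
  have hP' : C (H ⧸ RR0 V H) := by
    have hAq := quoC_acts hA' hP (RR0 V H)
    refine Cpx.proper hC (quoC_simplyConn hN.toActsC hP hX (RR0_gen V H)) hPe.met hPe.link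
      hAq.acts hAq.iso fun v => ?_
    have hRR : ∀ (h : H) (x : V), h • x = x → h ∈ RR0 V H := fun h x hx => mem_RR0 h x hx
    have : Subsingleton (MulAction.stabilizer (H ⧸ RR0 V H) v) :=
      ⟨fun a b => Subtype.ext ((quo_free hRR a.1 v a.2).trans (quo_free hRR b.1 v b.2).symm)⟩
    infer_instance
  let p : H →* H ⧸ RR0 V H := QuotientGroup.mk' (RR0 V H)
  have hp : ∀ h : H, p h = 1 ↔ h ∈ RR0 V H := fun h => QuotientGroup.eq_one_iff h
  refine hE.ext H ((H ⧸ RR0 V H) × Multiplicative ℤ) (p.prod (f.comp H.subtype))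
    (hC.prod _ _ hP' hC.int) ?_
  rintro ⟨p₀, n₀⟩
  by_cases hfin : IsOfFinOrder p₀
  · -- the preimage has a subgroup of finite index in `R`
    obtain ⟨D, hD⟩ : ∃ D : Subgroup H, D = (Subgroup.zpowers (p₀, n₀)).comap
      (p.prod (f.comp H.subtype)) := ⟨_, rfl⟩
    rw [← hD]
    have hD' : ∀ d ∈ D, (p.prod (f.comp H.subtype)) d ∈ Subgroup.zpowers (p₀, n₀) :=
      fun d hd => by
        rw [hD] at hd
        exact hd
    have hfr : Finite (p.comp D.subtype).range := by
      have h1 : (p.comp D.subtype).range ≤ Subgroup.zpowers p₀ := by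
        rintro _ ⟨d, rfl⟩
        obtain ⟨m, hm⟩ := hD' d.1 d.2
        exact ⟨m, congrArg Prod.fst hm⟩
      have h2 : Finite (Subgroup.zpowers p₀) := finite_zpowers.2 hfin
      exact Finite.of_injective _ (Subgroup.inclusion_injective h1)
    refine hC.finiteIndex D (p.comp D.subtype).ker (Subgroup.finiteIndex_ker _) ?_
    refine hC.inj (H := RR0 V H)
      { toFun := fun d => ⟨d.1.1, (hp _).1 d.2⟩
        map_one' := rfl
        map_mul' := fun _ _ => rfl } ?_ hR
    intro a b hab
    exact Subtype.ext (Subtype.ext (congrArg (fun z : RR0 V H => z.1) hab))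
  · -- the preimage acts freely
    have hAD := hA'.sub ((Subgroup.zpowers (p₀, n₀)).comap (p.prod (f.comp H.subtype)))
    refine Cpx.proper hC hX hP.met hP.link hAD.acts hAD.iso fun v => ?_
    have key : ∀ d : ((Subgroup.zpowers (p₀, n₀)).comap (p.prod (f.comp H.subtype))),
        d • v = v → d = 1 := by
      intro d hd
      obtain ⟨m, hm⟩ := d.2
      have h1 : p₀ ^ m = p d.1 := congrArg Prod.fst hm
      have h2 : n₀ ^ m = f d.1.1 := congrArg Prod.snd hm
      have h3 : p d.1 = 1 := (hp _).2 (mem_RR0 d.1 v hd)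
      rw [h3] at h1
      have h4 : m = 0 := by
        by_contra h5
        exact hfin (isOfFinOrder_iff_zpow_eq_one.2 ⟨m, h5, h1⟩)
      rw [h4, zpow_zero] at h2
      exact Subtype.ext (Subtype.ext (hf v _ hd h2.symm))
    have : Subsingleton (MulAction.stabilizer
        ((Subgroup.zpowers (p₀, n₀)).comap (p.prod (f.comp H.subtype))) v) :=
      ⟨fun a b => Subtype.ext ((key a.1 a.2).trans (key b.1 b.2).symm)⟩
    infer_instance

/-- Groups with a homomorphism to the integers which is injective on the stabilizers. -/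
theorem int_genG (geo : GeoU) (loc : LocInput) {C : ∀ (G : Type) [Group G], Prop} (hC : CatClass C)
    (hE : ExtClass C) (hP : Pe X ℓ τ) (hX : X.SimplyConn) (hA : ActsC G X ℓ τ)
    (f : G →* Multiplicative ℤ)
    (hf : ∀ (v : V) (g : G), g • v = v → f g = 1 → g = 1) : C G := by
  refine of_fg hC.toClosedClass hA.acts fun T S' hS hAT => ?_
  have hA' := hA.sub T
  refine colim_gen hC.toClosedClass hAT hX S' hS fun v₀ s hv₀ => ?_
  have hP' : Pe (cover (X.sb T s) v₀) (fun p q => ℓ p.1.1 q.1.1) (fun p => τ p.1.1) :=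
    ⟨cover_metric (sb_metric hP.met s) v₀, cover_linkCond (sb_linkCond hP.link s) v₀,
      fun u v h => hP.cmp _ _ h.1.1, fun u u' v h h' h2 h3 =>
        Pool.Agent.Helper13.LT.adj_eq ((cover _ v₀).adj_symm _ _ h) ((cover _ v₀).adj_symm _ _ h')
          (hP.un _ _ _ h.1.1 h'.1.1 h2 h3)⟩
  have hA'' : ActsC (GG (sb_acts hAT s) v₀) (cover (X.sb T s) v₀) (fun p q => ℓ p.1.1 q.1.1)
      (fun p => τ p.1.1) :=
    ⟨cover_acts _, fun g u v => hA'.iso g.1.right _ _, fun g v => hA'.inv g.1.right _⟩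
  refine int_memG geo loc hE hC hP' cover_simplyConn hA''
    (cover_cocompact (sb_acts hAT s) s hv₀ (fun u v h => h.2) (fun u v w h => h.2))
    ((f.comp T.subtype).comp (prG v₀ (sb_acts hAT s))) fun p x hx h1 => ?_
  exact cover_inj (f.comp T.subtype) x p hx h1 fun g hg hg' => Subtype.ext (hf _ g.1 hg hg')

/-- Groups with a homomorphism to a group of the class which is injective on the stabilizers. -/
theorem map_genG (geo : GeoU) (loc : LocInput) {C : ∀ (G : Type) [Group G], Prop} (hC : CatClass C)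
    (hE : ExtClass C) (hP : Pe X ℓ τ) (hX : X.SimplyConn) (hA : ActsC G X ℓ τ)
    {Q : Type} [Group Q] (f : G →* Q) (hQ : C Q)
    (hf : ∀ (v : V) (g : G), g • v = v → f g = 1 → g = 1) : C G := by
  refine hE.ext G Q f hQ fun q => ?_
  obtain ⟨D, hD⟩ : ∃ D : Subgroup G, D = (Subgroup.zpowers q).comap f := ⟨_, rfl⟩
  have hD' : ∀ d ∈ D, f d ∈ Subgroup.zpowers q := fun d hd => by
    rw [hD] at hd
    exact hd
  rw [← hD]
  have hAD := hA.sub D
  by_cases hfin' : IsOfFinOrder q
  · refine Cpx.proper hC hX hP.met hP.link hAD.acts hAD.iso fun v => ?_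
    have h2 : Finite (Subgroup.zpowers q) := finite_zpowers.2 hfin'
    refine Finite.of_injective (β := Subgroup.zpowers q)
      (fun d : MulAction.stabilizer D v => ⟨f d.1.1, hD' _ d.1.2⟩) ?_
    intro a b hab
    have h3 : f a.1.1 = f b.1.1 := congrArg Subtype.val hab
    have h4 : (b.1.1)⁻¹ * a.1.1 = 1 := by
      refine hf v _ ?_ (by rw [map_mul, map_inv, h3, inv_mul_cancel])
      have h5 : a.1.1 • v = v := a.2
      have h6 : b.1.1 • v = v := b.2
      rw [mul_smul, h5, inv_smul_eq_iff, h6]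
    exact Subtype.ext (Subtype.ext (inv_mul_eq_one.1 h4).symm)
  · have hinj : ∀ m n : ℤ, q ^ m = q ^ n → m = n := by
      intro m n hmn
      by_contra hne
      refine hfin' (isOfFinOrder_iff_zpow_eq_one.2 ⟨m - n, sub_ne_zero.2 hne, ?_⟩)
      rw [zpow_sub, hmn, mul_inv_cancel]
    choose e he using fun d : D => hD' d.1 d.2
    have he' : ∀ d : D, q ^ e d = f d.1 := he
    let φ : D →* Multiplicative ℤ :=
      { toFun := fun d => Multiplicative.ofAdd (e d)
        map_one' := by
          rw [ofAdd_eq_one]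
          exact hinj _ _ (by rw [he', zpow_zero, OneMemClass.coe_one, map_one])
        map_mul' := fun a b => by
          rw [← ofAdd_add]
          congr 1
          exact hinj _ _ (by rw [he', zpow_add, he', he', Subgroup.coe_mul, map_mul]) }
    refine int_genG geo loc hC hE hP hX hAD φ fun v d hd h1 => Subtype.ext (hf v d.1 hd ?_)
    have h2 : e d = 0 := by
      have : Multiplicative.ofAdd (e d) = 1 := h1
      rwa [ofAdd_eq_one] at this
    rw [← he', h2, zpow_zero]

/-- **Main theorem.** Groups `G` such that for each finite set of vertices there is a homomorphism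
to a group of the class which is injective on the stabilizers of these vertices. -/
theorem mainG (geo : GeoU) (loc : LocInput) {C : ∀ (G : Type) [Group G], Prop} (hC : CatClass C)
    (hE : ExtClass C) (hP : Pe X ℓ τ) (hA : ActsC G X ℓ τ) (hX : X.SimplyConn)
    (hQ : ∀ K : Finset V, ∃ (Q : Type) (_ : Group Q) (f : G →* Q), C Q ∧
      ∀ v ∈ K, ∀ g : G, g • v = v → f g = 1 → g = 1) : C G := by
  refine of_fg hC.toClosedClass hA.acts fun T S' hS hAT => ?_
  have hA' := hA.sub T
  refine colim_gen hC.toClosedClass hAT hX S' hS fun v₀ s hv₀ => ?_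
  obtain ⟨Q, _, f, hCQ, hf⟩ := hQ s
  have hP' : Pe (cover (X.sb T s) v₀) (fun p q => ℓ p.1.1 q.1.1) (fun p => τ p.1.1) :=
    ⟨cover_metric (sb_metric hP.met s) v₀, cover_linkCond (sb_linkCond hP.link s) v₀,
      fun u v h => hP.cmp _ _ h.1.1, fun u u' v h h' h2 h3 =>
        Pool.Agent.Helper13.LT.adj_eq ((cover _ v₀).adj_symm _ _ h) ((cover _ v₀).adj_symm _ _ h')
          (hP.un _ _ _ h.1.1 h'.1.1 h2 h3)⟩
  have hA'' : ActsC (GG (sb_acts hAT s) v₀) (cover (X.sb T s) v₀) (fun p q => ℓ p.1.1 q.1.1)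
      (fun p => τ p.1.1) :=
    ⟨cover_acts _, fun g u v => hA'.iso g.1.right _ _, fun g v => hA'.inv g.1.right _⟩
  have hreach : ∀ p : Cv (X.sb T s) v₀, ∃ γ : T, γ • p.1.1 ∈ s := by
    intro p
    refine reach_mem (X := X) (G := T) ⟨1, by simpa using hv₀⟩ (u := v₀) ?_
    have h2 := p.2
    have key : ∀ q : V × (X.sb T s).Phi, ReflTransGen (adjW (X.sb T s)) (v₀, 1) q →
        ReflTransGen (X.kadj T s) v₀ q.1 := by
      intro q hq
      induction hq with
      | refl => exact ReflTransGen.refl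
      | tail _ h4 ih => exact ih.tail h4.1
    exact key _ h2
  refine map_genG geo loc hC hE hP' cover_simplyConn hA''
    ((f.comp T.subtype).comp (prG v₀ (sb_acts hAT s))) hCQ fun p x hx h1 => ?_
  refine cover_inj (f.comp T.subtype) x p hx h1 fun g hg hg' => ?_
  obtain ⟨γ, hγ⟩ := hreach p
  have h3 : γ.1 * g.1 * γ.1⁻¹ = 1 := by
    refine hf _ hγ _ ?_ ?_
    · change (γ.1 * g.1 * γ.1⁻¹) • γ.1 • p.1.1 = γ.1 • p.1.1
      rw [mul_smul, inv_smul_smul, mul_smul]
      congr 1
    · have h4 : f g.1 = 1 := hg'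
      rw [map_mul, map_mul, h4, mul_one, ← map_mul, mul_inv_cancel, map_one]
  apply Subtype.ext
  have : g.1 = γ.1⁻¹ * (γ.1 * g.1 * γ.1⁻¹) * γ.1 := by group
  rw [this, h3]
  simp

end

end Pool.Agent.Helper13.GT
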