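import Pool.Agent.Helper13.GT.Defs
import Pool.Agent.Helper3.FJ.Fin3

/-!
# Quotients of piecewise Euclidean complexes
-/

set_option autoImplicit false

namespace Pool.Agent.Helper13.GT

open Relation Pool.Agent.Helper29.BA Pool.Agent.Helper29.PA Pool.Agent.Helper3.FJ
  Pool.Agent.Helper3.FJ.Cpx

/-- The link condition for the quotients of the links of `X` by the stabilizers. -/
def LinkQ {V : Type} (X : Cpx V) (ℓ : V → V → ℝ) (R : Type) [Group R] [MulAction R V] : Prop :=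
  ∀ (v : V) (n : ℕ) (y : ZMod (n + 3) → V) (r : ZMod (n + 3) → R), (∀ i, r i • v = v) →
    (∀ i, X.tri v (y i) (r i • y (i + 1))) →
    (∀ i j, i ≠ j → ¬ ∃ s : R, s • v = v ∧ s • y i = y j) →
    2 * Real.pi ≤ ∑ i, ang ℓ v (y i) (r i • y (i + 1))

section quo

variable {V : Type} {X : Cpx V} {ℓ : V → V → ℝ} {τ : V → Finset ℕ} {R : Type} [Group R]
  [MulAction R V]

section lq

variable (hA : ActsC R X ℓ τ) (hP : Pe X ℓ τ)

include hA hP

/-- Edges with the same image have the same length. -/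
theorem len_eq {x y x' y' : V} (h : X.adj x y) (h' : X.adj x' y')
    (h1 : (qv x : QV R V) = qv x') (h2 : (qv y : QV R V) = qv y') : ℓ x y = ℓ x' y' := by
  obtain ⟨g, rfl⟩ := (qv_eq R).1 h1
  have h3 : X.adj x (g⁻¹ • y') := by
    have := hA.acts.1 g⁻¹ _ _ h'
    rwa [inv_smul_smul] at this
  obtain ⟨r, h4, h5⟩ := no_bigon hA hP h h3 (h2.trans (qv_smul _ _).symm)
  calc ℓ x y = ℓ (r • x) (r • y) := (hA.iso r _ _).symm
    _ = ℓ x (g⁻¹ • y') := by rw [h4, h5]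
    _ = ℓ (g • x) (g • g⁻¹ • y') := (hA.iso g _ _).symm
    _ = ℓ (g • x) y' := by rw [smul_inv_smul]

theorem lq_eq {x y : V} (h : X.adj x y) : lq X ℓ R (qv x) (qv y) = ℓ x y := by
  have hex : ∃ p : V × V, X.adj p.1 p.2 ∧ (qv p.1 : QV R V) = qv x ∧ (qv p.2 : QV R V) = qv y :=
    ⟨(x, y), h, rfl, rfl⟩
  unfold lq
  rw [dif_pos hex]
  exact len_eq hA hP hex.choose_spec.1 h hex.choose_spec.2.1 hex.choose_spec.2.2

theorem lq_symm (u v : QV R V) : lq X ℓ R u v = lq X ℓ R v u := by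
  by_cases h : ∃ p : V × V, X.adj p.1 p.2 ∧ qv p.1 = u ∧ qv p.2 = v
  · obtain ⟨⟨x, y⟩, h1, rfl, rfl⟩ := h
    rw [lq_eq hA hP h1, lq_eq hA hP (X.adj_symm _ _ h1), hP.met.symm]
  · have h' : ¬ ∃ p : V × V, X.adj p.1 p.2 ∧ qv p.1 = v ∧ qv p.2 = u := by
      rintro ⟨⟨x, y⟩, h1, h2, h3⟩
      exact h ⟨(y, x), X.adj_symm _ _ h1, h3, h2⟩
    unfold lq
    rw [dif_neg h, dif_neg h']

theorem ang_lq {x y z : V} (h : X.tri x y z) :
    ang (lq X ℓ R) (qv x) (qv y) (qv z) = ang ℓ x y z := by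
  have h1 := X.tri_adj _ _ _ h
  have h2 := X.adj_symm _ _ (adj3 h)
  have h3 := adj2 h
  unfold ang
  rw [lq_eq hA hP h1, lq_eq hA hP h2, lq_eq hA hP h3]

theorem quoC_pe (hL : LinkQ X ℓ R) : Pe (quoC hA hP) (lq X ℓ R) (tq hA) := by
  refine ⟨⟨fun u v => lq_symm hA hP u v, ?_, ?_⟩, ?_, ?_, ?_⟩
  · rintro u v ⟨x, y, h, rfl, rfl⟩
    rw [lq_eq hA hP h]
    exact hP.met.pos _ _ h
  · rintro u v w ⟨x, y, z, h, rfl, rfl, rfl⟩
    rw [lq_eq hA hP (X.tri_adj _ _ _ h), lq_eq hA hP (adj2 h),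
      lq_eq hA hP (X.adj_symm _ _ (adj3 h))]
    exact hP.met.tri _ _ _ h
  · intro u n w hw ht
    obtain ⟨v, rfl⟩ := Quotient.exists_rep u
    change ∀ i, (quoC hA hP).tri (qv v) (w i) (w (i + 1)) at ht
    -- neighbours of `v` over the vertices of the circuit
    have hy : ∀ i, ∃ y, X.adj v y ∧ qv y = w i := by
      intro i
      obtain ⟨x, y, z, h, h1, h2, h3⟩ := ht i
      obtain ⟨g, rfl⟩ := (qv_eq R).1 h1
      exact ⟨g • y, hA.acts.1 g _ _ (X.tri_adj _ _ _ h), (qv_smul _ _).trans h2⟩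
    choose y hy1 hy2 using hy
    have hr : ∀ i, ∃ r : R, r • v = v ∧ X.tri v (y i) (r • y (i + 1)) := by
      intro i
      obtain ⟨x, p, z, h, h1, h2, h3⟩ := ht i
      obtain ⟨g, rfl⟩ := (qv_eq R).1 h1
      have h4 := hA.acts.2 g _ _ _ h
      obtain ⟨s, h5, h6⟩ := no_bigon hA hP (X.tri_adj _ _ _ h4) (hy1 i)
        ((qv_smul _ _).trans (h2.trans (hy2 i).symm))
      have h7 := hA.acts.2 s _ _ _ h4
      rw [h5, h6] at h7
      obtain ⟨t, h8, h9⟩ := no_bigon hA hP (hy1 (i + 1)) (X.adj_symm _ _ (adj3 h7))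
        ((hy2 (i + 1)).trans (h3.symm.trans ((qv_smul _ _).symm.trans (qv_smul _ _).symm)))
      exact ⟨t, h8, by rw [h9]; exact h7⟩
    choose r hr1 hr2 using hr
    have h10 := hL v n y r hr1 hr2 (by
      rintro i j hij ⟨s, h1, h2⟩
      refine hij (hw ?_)
      rw [← hy2 i, ← hy2 j, ← h2, qv_smul])
    refine h10.trans (le_of_eq (Finset.sum_congr rfl fun i _ => ?_))
    rw [← ang_lq hA hP (hr2 i), hy2, qv_smul, hy2]
    rfl
  · rintro u v ⟨x, y, h, rfl, rfl⟩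
    exact hP.cmp _ _ h
  · rintro u u' v ⟨x, y, h, rfl, rfl⟩ ⟨x', y', h', rfl, h2⟩ h3 h4
    obtain ⟨g, rfl⟩ := (qv_eq R).1 h2
    have h5 : X.adj (g • x') (g • y') := hA.acts.1 g _ _ h'
    have h6 := hP.un _ _ _ h h5 (by rw [hA.inv]; exact h3) h4
    rw [h6, qv_smul]

end lq

end quo

section act

variable {V : Type} {X : Cpx V} {ℓ : V → V → ℝ} {τ : V → Finset ℕ} {G : Type} [Group G]
  [MulAction G V]

theorem ActsC.sub (hA : ActsC G X ℓ τ) (T : Subgroup G) : ActsC T X ℓ τ :=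
  ⟨⟨fun g u v h => hA.acts.1 g.1 u v h, fun g u v w h => hA.acts.2 g.1 u v w h⟩,
    fun g u v => hA.iso g.1 u v, fun g v => hA.inv g.1 v⟩

/-- The quotient group acts on the quotient. -/
theorem quoC_acts (hA : ActsC G X ℓ τ) (hP : Pe X ℓ τ) (R : Subgroup G) [R.Normal] :
    ActsC (G ⧸ R) (quoC (hA.sub R) hP) (lq X ℓ R) (tq (hA.sub R)) := by
  refine ⟨⟨fun p u v huv => ?_, fun p u v w huv => ?_⟩, fun p u v => ?_, fun p u => ?_⟩
  · obtain ⟨g, rfl⟩ := QuotientGroup.mk_surjective p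
    obtain ⟨x, y, h, rfl, rfl⟩ := huv
    exact ⟨g • x, g • y, hA.acts.1 g _ _ h, rfl, rfl⟩
  · obtain ⟨g, rfl⟩ := QuotientGroup.mk_surjective p
    obtain ⟨x, y, z, h, rfl, rfl, rfl⟩ := huv
    exact ⟨g • x, g • y, g • z, hA.acts.2 g _ _ _ h, rfl, rfl, rfl⟩
  · obtain ⟨g, rfl⟩ := QuotientGroup.mk_surjective p
    by_cases h : ∃ q : V × V, X.adj q.1 q.2 ∧ qv q.1 = u ∧ qv q.2 = v
    · obtain ⟨⟨x, y⟩, h1, rfl, rfl⟩ := h
      rw [lq_eq (hA.sub R) hP h1, mk_smul, mk_smul, lq_eq (hA.sub R) hP (hA.acts.1 g _ _ h1)]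
      exact hA.iso g _ _
    · have h' : ¬ ∃ q : V × V, X.adj q.1 q.2 ∧ qv q.1 = (QuotientGroup.mk g : G ⧸ R) • u ∧
          qv q.2 = (QuotientGroup.mk g : G ⧸ R) • v := by
        rintro ⟨⟨x, y⟩, h1, h2, h3⟩
        refine h ⟨(g⁻¹ • x, g⁻¹ • y), hA.acts.1 g⁻¹ _ _ h1, ?_, ?_⟩
        · have : (qv (g⁻¹ • x) : QV R V) = (QuotientGroup.mk g⁻¹ : G ⧸ R) • qv x := rfl
          rw [this, h2, ← mul_smul, QuotientGroup.mk_inv, inv_mul_cancel, one_smul]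
        · have : (qv (g⁻¹ • y) : QV R V) = (QuotientGroup.mk g⁻¹ : G ⧸ R) • qv y := rfl
          rw [this, h3, ← mul_smul, QuotientGroup.mk_inv, inv_mul_cancel, one_smul]
      unfold lq
      rw [dif_neg h, dif_neg h']
  · obtain ⟨g, rfl⟩ := QuotientGroup.mk_surjective p
    obtain ⟨x, rfl⟩ := Quotient.exists_rep u
    exact hA.inv g x

end act

end Pool.Agent.Helper13.GT
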