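import Pool.Agent.Helper13.GT.SdDefs

/-!
# The barycentric subdivision is simply connected
-/

set_option autoImplicit false

namespace Pool.Agent.Helper13.GT

open Relation Pool.Agent.Helper29.BA Pool.Agent.Helper29.PA Pool.Agent.Helper3.FJ
  Pool.Agent.Helper3.FJ.Cpx

open scoped Classical

variable {V : Type} {X : Cpx V}

theorem pt_sub {x : V} {a : Smp X} (h : x ∈ a.s) : (pt X x).s ⊆ a.s := by
  intro w hw
  rw [Finset.mem_singleton.1 hw]
  exact h

theorem ed_comm {x y : V} (h : X.adj x y) (h' : X.adj y x) : ed h = ed h' :=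
  Smp.ext (Finset.pair_comm _ _)

theorem pt_ed {x y : V} (h : X.adj x y) : (pt X x).s ⊂ (ed h).s := by
  refine Finset.ssubset_iff_subset_ne.2 ⟨pt_sub (Finset.mem_insert_self _ _), fun h' => ?_⟩
  have h1 : y ∈ (pt X x).s := by
    rw [h']
    exact Finset.mem_insert_of_mem (Finset.mem_singleton_self _)
  exact adj_ne h (Finset.mem_singleton.1 h1).symm

theorem pt_ed' {x y : V} (h : X.adj x y) : (pt X y).s ⊂ (ed h).s := by
  rw [ed_comm h (X.adj_symm _ _ h)]
  exact pt_ed _

theorem ed_sub {x y : V} {h : X.adj x y} {a : Smp X} (hx : x ∈ a.s) (hy : y ∈ a.s) :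
    (ed h).s ⊆ a.s := by
  intro w hw
  rcases Finset.mem_insert.1 hw with rfl | hw
  · exact hx
  · rw [Finset.mem_singleton.1 hw]
    exact hy

/-- Connected. -/
theorem sd_conn (hX : ∀ u v, ReflTransGen X.adj u v) (a b : Smp X) :
    ReflTransGen (sd X).adj a b := by
  have h1 : ∀ x (a : Smp X), x ∈ a.s → ReflTransGen (sd X).adj (pt X x) a := by
    intro x a hx
    by_cases h : pt X x = a
    · rw [h]
    · exact ReflTransGen.single (Or.inl (Finset.ssubset_iff_subset_ne.2 ⟨pt_sub hx,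
        fun h' => h (Smp.ext h')⟩))
  have h2 : ∀ x (a : Smp X), x ∈ a.s → ReflTransGen (sd X).adj a (pt X x) := by
    intro x a hx
    by_cases h : pt X x = a
    · rw [h]
    · exact ReflTransGen.single (Or.inr (Finset.ssubset_iff_subset_ne.2 ⟨pt_sub hx,
        fun h' => h (Smp.ext h')⟩))
  have h3 : ∀ x y, ReflTransGen (sd X).adj (pt X x) (pt X y) := by
    intro x y
    induction hX x y with
    | refl => exact ReflTransGen.refl
    | tail _ h ih => exact (ih.tail (Or.inl (pt_ed h))).tail (Or.inr (pt_ed' h))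
  obtain ⟨x, hx⟩ := a.ne
  obtain ⟨y, hy⟩ := b.ne
  exact ((h2 x a hx).trans (h3 x y)).trans (h1 y b hy)

/-- Simply connected. -/
theorem sd_simplyConn (hX : X.SimplyConn) : (sd X).SimplyConn := by
  obtain ⟨⟨v⟩, hc, hs⟩ := hX
  refine ⟨⟨pt X v⟩, sd_conn hc, ?_⟩
  intro H _ c hcoc
  let d : Smp X → Smp X → H := fun a b => if a = b then 1 else c a b
  have d1 : ∀ {a b : Smp X}, sAdj a b → d a b = c a b := fun h => if_neg h.ne
  have d0 : ∀ a, d a a = 1 := fun a => if_pos rfl
  have dinv : ∀ {a b : Smp X}, a.s ⊆ b.s → d a b * d b a = 1 := by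
    intro a b h
    by_cases hab : a = b
    · rw [hab, d0, one_mul]
    · have h1 : sAdj a b := Or.inl (Finset.ssubset_iff_subset_ne.2 ⟨h, fun h' => hab (Smp.ext h')⟩)
      rw [d1 h1, d1 h1.symm]
      exact hcoc.1 _ _ h1
  have dtri : ∀ {a b e : Smp X}, a.s ⊆ b.s → b.s ⊆ e.s → d a e = d a b * d b e := by
    intro a b e h1 h2
    by_cases hab : a = b
    · rw [hab, d0, one_mul]
    by_cases hbe : b = e
    · rw [hbe, d0, mul_one]
    have s1 : a.s ⊂ b.s := Finset.ssubset_iff_subset_ne.2 ⟨h1, fun h' => hab (Smp.ext h')⟩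
    have s2 : b.s ⊂ e.s := Finset.ssubset_iff_subset_ne.2 ⟨h2, fun h' => hbe (Smp.ext h')⟩
    have s3 := s1.trans s2
    rw [d1 (Or.inl s1), d1 (Or.inl s2), d1 (Or.inl s3)]
    have e1 := hcoc.2 a b e ⟨Or.inl s1, Or.inl s2, Or.inl s3⟩
    have e2 := hcoc.1 a e (Or.inl s3)
    rw [← mul_right_cancel_iff (a := c e a), e1, e2]
  let c₀ : V → V → H := fun x y => if h : X.adj x y then d (pt X x) (ed h) * d (ed h) (pt X y) else 1
  have hc₀ : ∀ {x y : V} (h : X.adj x y), c₀ x y = d (pt X x) (ed h) * d (ed h) (pt X y) :=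
    fun h => dif_pos h
  -- an edge in a larger simplex
  have hT : ∀ {x y : V} (h : X.adj x y) {T : Smp X}, x ∈ T.s → y ∈ T.s →
      c₀ x y = d (pt X x) T * d T (pt X y) := by
    intro x y h T hx hy
    have e1 := dtri (pt_ed h).1 (ed_sub (h := h) hx hy)
    have e2 := dtri (pt_ed' h).1 (ed_sub (h := h) hx hy)
    have e3 := dinv (pt_ed' h).1
    have e4 := dinv (pt_sub hy)
    rw [hc₀ h, e1]
    rw [e2] at e4
    have e5 : d (ed h) T * d T (pt X y) = d (ed h) (pt X y) := by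
      rw [mul_assoc, mul_eq_one_iff_inv_eq] at e4
      rw [← e4, ← mul_eq_one_iff_inv_eq.1 e3]
    rw [mul_assoc, e5]
  obtain ⟨g₀, hg₀⟩ := hs H c₀ (by
    refine ⟨fun x y h => ?_, fun x y z h => ?_⟩
    · rw [hc₀ h, hc₀ (X.adj_symm _ _ h), ed_comm (X.adj_symm _ _ h) h]
      have e1 := dinv (pt_ed h).1
      have e2 := dinv (pt_ed' h).1
      have e3 : d (ed h) (pt X y) * d (pt X y) (ed h) = 1 := by
        rw [← mul_eq_one_iff_inv_eq.1 e2]
        exact inv_mul_cancel _
      rw [mul_assoc, ← mul_assoc (d (ed h) (pt X y)), e3, one_mul, e1]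
    · obtain ⟨h1, h2, h3⟩ := tri_adj' h
      have mx : x ∈ (tr h).s := Finset.mem_insert_self _ _
      have my : y ∈ (tr h).s := Finset.mem_insert_of_mem (Finset.mem_insert_self _ _)
      have mz : z ∈ (tr h).s := Finset.mem_insert_of_mem (Finset.mem_insert_of_mem
        (Finset.mem_singleton_self _))
      rw [hT h1 mx my, hT h2 my mz, hT (X.adj_symm _ _ h3) mz mx]
      have e1 := dinv (pt_sub mx)
      have e2 := dinv (pt_sub my)
      have e3 := dinv (pt_sub mz)
      rw [← mul_eq_one_iff_inv_eq.1 e1, ← mul_eq_one_iff_inv_eq.1 e2,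
        ← mul_eq_one_iff_inv_eq.1 e3]
      group)
  have key : ∀ {x y : V} {a : Smp X}, x ∈ a.s → y ∈ a.s →
      g₀ x * d (pt X x) a = g₀ y * d (pt X y) a := by
    intro x y a hx hy
    by_cases hxy : x = y
    · rw [hxy]
    have h1 := a.adj x hx y hy hxy
    have e1 := hg₀ x y h1
    rw [hT h1 hx hy] at e1
    have e2 : g₀ y = g₀ x * (d (pt X x) a * d a (pt X y)) := by
      rw [e1]
      group
    have e3 := dinv (pt_sub hy)
    rw [e2, ← mul_eq_one_iff_inv_eq.1 e3]
    group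
  let g : Smp X → H := fun a => g₀ a.ne.choose * d (pt X a.ne.choose) a
  have hg : ∀ {x : V} {a : Smp X}, x ∈ a.s → g a = g₀ x * d (pt X x) a :=
    fun {x a} hx => key a.ne.choose_spec hx
  have hup : ∀ {a b : Smp X}, a.s ⊂ b.s → c a b = (g a)⁻¹ * g b := by
    intro a b h
    obtain ⟨x, hx⟩ := a.ne
    rw [hg hx, hg (h.1 hx), dtri (pt_sub hx) h.1, ← d1 (Or.inl h)]
    group
  refine ⟨g, ?_⟩
  rintro a b (h | h)
  · exact hup h
  · have e1 := hcoc.1 b a (Or.inl h)
    rw [← mul_eq_one_iff_inv_eq.1 e1, hup h]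
    group

end Pool.Agent.Helper13.GT
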