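import Pool.Agent.Helper3.FJ.Met

/-!
# The barycentric subdivision of a complex of dimension two: definitions
-/

set_option autoImplicit false

namespace Pool.Agent.Helper13.GT

open Relation Pool.Agent.Helper29.BA Pool.Agent.Helper29.PA Pool.Agent.Helper3.FJ
  Pool.Agent.Helper3.FJ.Cpx

open scoped Classical

/-- The simplices of `X`. -/
structure Smp {V : Type} (X : Cpx V) where
  s : Finset V
  ne : s.Nonempty
  card : s.card ≤ 3
  adj : ∀ x ∈ s, ∀ y ∈ s, x ≠ y → X.adj x y
  tri : ∀ x ∈ s, ∀ y ∈ s, ∀ z ∈ s, x ≠ y → y ≠ z → x ≠ z → X.tri x y z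

variable {V : Type} {X : Cpx V}

@[ext] theorem Smp.ext {a b : Smp X} (h : a.s = b.s) : a = b := by
  cases a; cases b; cases h; rfl

theorem Smp.card_pos (a : Smp X) : 0 < a.s.card := Finset.card_pos.2 a.ne

/-- The adjacency in the subdivision. -/
def sAdj (a b : Smp X) : Prop := a.s ⊂ b.s ∨ b.s ⊂ a.s

theorem sAdj.symm {a b : Smp X} (h : sAdj a b) : sAdj b a := Or.symm h

theorem sAdj.card_ne {a b : Smp X} (h : sAdj a b) : a.s.card ≠ b.s.card := by
  rcases h with h | h
  · exact (Finset.card_lt_card h).ne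
  · exact (Finset.card_lt_card h).ne'

theorem sAdj.ne {a b : Smp X} (h : sAdj a b) : a ≠ b := fun h' => h.card_ne (by rw [h'])

/-- The barycentric subdivision. -/
def sd (X : Cpx V) : Cpx (Smp X) where
  adj a b := sAdj a b
  tri a b c := sAdj a b ∧ sAdj b c ∧ sAdj a c
  adj_symm := fun _ _ h => h.symm
  adj_irrefl := fun _ h => h.ne rfl
  tri_rot := fun _ _ _ h => ⟨h.2.1, h.2.2.symm, h.1.symm⟩
  tri_flip := fun _ _ _ h => ⟨h.1.symm, h.2.2, h.2.1⟩
  tri_adj := fun _ _ _ h => h.1

/-- The vertices. -/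
def pt (X : Cpx V) (x : V) : Smp X where
  s := {x}
  ne := ⟨x, Finset.mem_singleton_self x⟩
  card := by simp
  adj := by
    intro a ha b hb h
    rw [Finset.mem_singleton] at ha hb
    exact (h (ha.trans hb.symm)).elim
  tri := by
    intro a ha b hb c _ h
    rw [Finset.mem_singleton] at ha hb
    exact (h (ha.trans hb.symm)).elim

/-- The edges. -/
noncomputable def ed {x y : V} (h : X.adj x y) : Smp X where
  s := {x, y}
  ne := ⟨x, by simp⟩
  card := (Finset.card_le_two).trans (by norm_num)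
  adj := by
    intro a ha b hb hab
    simp only [Finset.mem_insert, Finset.mem_singleton] at ha hb
    rcases ha with rfl | rfl <;> rcases hb with rfl | rfl
    · exact (hab rfl).elim
    · exact h
    · exact X.adj_symm _ _ h
    · exact (hab rfl).elim
  tri := by
    intro a ha b hb c hc hab hbc hac
    simp only [Finset.mem_insert, Finset.mem_singleton] at ha hb hc
    exfalso
    rcases ha with rfl | rfl <;> rcases hb with rfl | rfl <;> rcases hc with rfl | rfl <;>
      simp_all

theorem tri_adj' {x y z : V} (h : X.tri x y z) : X.adj x y ∧ X.adj y z ∧ X.adj x z :=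
  ⟨X.tri_adj _ _ _ h, X.tri_adj _ _ _ (X.tri_rot _ _ _ h),
    X.adj_symm _ _ (X.tri_adj _ _ _ (X.tri_rot _ _ _ (X.tri_rot _ _ _ h)))⟩

theorem adj_ne {x y : V} (h : X.adj x y) : x ≠ y := fun h' => X.adj_irrefl x (by rwa [← h'] at h)

theorem tri_ne {x y z : V} (h : X.tri x y z) : x ≠ y ∧ y ≠ z ∧ x ≠ z :=
  ⟨adj_ne (tri_adj' h).1, adj_ne (tri_adj' h).2.1, adj_ne (tri_adj' h).2.2⟩

/-- The triangles. -/
noncomputable def tr {x y z : V} (h : X.tri x y z) : Smp X where
  s := {x, y, z}
  ne := ⟨x, by simp⟩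
  card := Finset.card_le_three
  adj := by
    intro a ha b hb hab
    obtain ⟨h1, h2, h3⟩ := tri_adj' h
    simp only [Finset.mem_insert, Finset.mem_singleton] at ha hb
    rcases ha with rfl | rfl | rfl <;> rcases hb with rfl | rfl | rfl
    · exact (hab rfl).elim
    · exact h1
    · exact h3
    · exact X.adj_symm _ _ h1
    · exact (hab rfl).elim
    · exact h2
    · exact X.adj_symm _ _ h3
    · exact X.adj_symm _ _ h2
    · exact (hab rfl).elim
  tri := by
    intro a ha b hb c hc hab hbc hac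
    have h231 := X.tri_rot _ _ _ h
    have h312 := X.tri_rot _ _ _ h231
    have h213 := X.tri_flip _ _ _ h
    have h132 := X.tri_rot _ _ _ h213
    have h321 := X.tri_rot _ _ _ h132
    simp only [Finset.mem_insert, Finset.mem_singleton] at ha hb hc
    rcases ha with rfl | rfl | rfl <;> rcases hb with rfl | rfl | rfl <;>
      rcases hc with rfl | rfl | rfl <;>
      first
      | assumption
      | exact (hab rfl).elim
      | exact (hbc rfl).elim
      | exact (hac rfl).elim

section act

variable {G : Type} [Group G] [MulAction G V]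

/-- The translates of simplices. -/
def Smp.tr (hA : X.Acts G) (g : G) (a : Smp X) : Smp X where
  s := a.s.map (MulAction.toPerm g).toEmbedding
  ne := a.ne.map
  card := by rw [Finset.card_map]; exact a.card
  adj := by
    intro x hx y hy h
    simp only [Finset.mem_map, Equiv.coe_toEmbedding, MulAction.toPerm_apply] at hx hy
    obtain ⟨x, hx, rfl⟩ := hx
    obtain ⟨y, hy, rfl⟩ := hy
    exact hA.1 g _ _ (a.adj x hx y hy fun h' => h (by rw [h']))
  tri := by
    intro x hx y hy z hz h1 h2 h3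
    simp only [Finset.mem_map, Equiv.coe_toEmbedding, MulAction.toPerm_apply] at hx hy hz
    obtain ⟨x, hx, rfl⟩ := hx
    obtain ⟨y, hy, rfl⟩ := hy
    obtain ⟨z, hz, rfl⟩ := hz
    exact hA.2 g _ _ _ (a.tri x hx y hy z hz (fun h' => h1 (by rw [h'])) (fun h' => h2 (by rw [h']))
      fun h' => h3 (by rw [h']))

instance smpAct [h : Fact (X.Acts G)] : MulAction G (Smp X) where
  smul g a := a.tr h.out g
  one_smul a := by
    refine Smp.ext ?_
    change a.s.map (MulAction.toPerm (1 : G)).toEmbedding = a.s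
    ext x
    simp
  mul_smul g g' a := by
    refine Smp.ext ?_
    change a.s.map (MulAction.toPerm (g * g')).toEmbedding =
      (a.s.map (MulAction.toPerm g').toEmbedding).map (MulAction.toPerm g).toEmbedding
    ext x
    simp only [Finset.mem_map, Equiv.coe_toEmbedding, MulAction.toPerm_apply]
    constructor
    · rintro ⟨y, hy, rfl⟩
      exact ⟨g' • y, ⟨y, hy, rfl⟩, (mul_smul _ _ _).symm⟩
    · rintro ⟨_, ⟨y, hy, rfl⟩, rfl⟩
      exact ⟨y, hy, mul_smul _ _ _⟩

theorem smul_s [h : Fact (X.Acts G)] (g : G) (a : Smp X) :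
    (g • a).s = a.s.map (MulAction.toPerm g).toEmbedding := rfl

theorem mem_smul_s [h : Fact (X.Acts G)] {g : G} {a : Smp X} {x : V} :
    x ∈ (g • a).s ↔ ∃ y ∈ a.s, g • y = x := by
  rw [smul_s, Finset.mem_map]
  rfl

theorem smul_mem_smul_s [h : Fact (X.Acts G)] {g : G} {a : Smp X} {x : V} :
    g • x ∈ (g • a).s ↔ x ∈ a.s := by
  rw [mem_smul_s]
  constructor
  · rintro ⟨y, hy, h⟩
    rwa [← smul_left_cancel g h]
  · exact fun h => ⟨x, h, rfl⟩

theorem card_smul_s [h : Fact (X.Acts G)] (g : G) (a : Smp X) : (g • a).s.card = a.s.card := by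
  rw [smul_s, Finset.card_map]

theorem sAdj_smul [h : Fact (X.Acts G)] (g : G) {a b : Smp X} (hab : sAdj a b) :
    sAdj (g • a) (g • b) := by
  rcases hab with h1 | h1
  · exact Or.inl (Finset.map_ssubset_map.2 h1)
  · exact Or.inr (Finset.map_ssubset_map.2 h1)

instance sdActs [h : Fact (X.Acts G)] : Fact ((sd X).Acts G) :=
  ⟨fun g _ _ hab => sAdj_smul g hab,
    fun g _ _ _ hh => ⟨sAdj_smul g hh.1, sAdj_smul g hh.2.1, sAdj_smul g hh.2.2⟩⟩

end act

end Pool.Agent.Helper13.GT
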