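import Pool.Agent.Helper13.GT.SdLen

/-!
# The barycentric subdivision: the metric and the angles
-/

set_option autoImplicit false

namespace Pool.Agent.Helper13.GT

open Relation Pool.Agent.Helper29.BA Pool.Agent.Helper29.PA Pool.Agent.Helper3.FJ
  Pool.Agent.Helper3.FJ.Cpx

open scoped Classical

variable {V : Type} {X : Cpx V}

/-- The simplices are Euclidean. -/
theorem exists_emb {ℓ : V → V → ℝ} (hM : X.Metric ℓ) (T : Smp X) : ∃ φ : V → ℂ, Emb ℓ T.s φ := by
  have h1 := T.card_pos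
  have h2 := T.card
  have h3 : T.s.card = 1 ∨ T.s.card = 2 ∨ T.s.card = 3 := by omega
  rcases h3 with h3 | h3 | h3
  · obtain ⟨x, hx⟩ := Finset.card_eq_one.1 h3
    refine ⟨fun _ => 0, ?_, ?_⟩
    · intro a ha b hb
      rw [hx, Finset.mem_singleton] at ha hb
      rw [ha, hb, dist_self, l0_self]
    · intro a ha b hb c _ hab
      rw [hx, Finset.mem_singleton] at ha hb
      exact (hab (ha.trans hb.symm)).elim
  · obtain ⟨x, y, hxy, hx⟩ := Finset.card_eq_two.1 h3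
    rw [hx]
    exact exists_emb_edge hM (T.adj x (by rw [hx]; simp) y (by rw [hx]; simp) hxy)
  · obtain ⟨x, y, z, hxy, hxz, hyz, hx⟩ := Finset.card_eq_three.1 h3
    rw [hx]
    exact exists_emb_tri hM (T.tri x (by rw [hx]; simp) y (by rw [hx]; simp) z (by rw [hx]; simp)
      hxy hyz hxz)

/-- Flags. -/
theorem flag_eq {a b c : Smp X} (h1 : a.s ⊂ b.s) (h2 : b.s ⊂ c.s) :
    ∃ x y z, x ≠ y ∧ y ≠ z ∧ x ≠ z ∧ a.s = {x} ∧ b.s = {x, y} ∧ c.s = {x, y, z} := by
  have e1 := Finset.card_lt_card h1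
  have e2 := Finset.card_lt_card h2
  have e3 := a.card_pos
  have e4 := c.card
  obtain ⟨x, hx⟩ := Finset.card_eq_one.1 (show a.s.card = 1 by omega)
  obtain ⟨y, hy, hy'⟩ := Finset.exists_eq_insert_iff.2 ⟨h1.1, show a.s.card + 1 = b.s.card by omega⟩
  obtain ⟨z, hz, hz'⟩ := Finset.exists_eq_insert_iff.2 ⟨h2.1, show b.s.card + 1 = c.s.card by omega⟩
  rw [hx, Finset.mem_singleton] at hy
  rw [hx] at hy'
  rw [← hy', Finset.mem_insert, Finset.mem_singleton, not_or] at hz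
  rw [← hy'] at hz'
  refine ⟨x, y, z, fun h => hy h.symm, fun h => hz.1 h.symm, fun h => hz.2 h.symm, hx, ?_, ?_⟩
  · rw [← hy', Finset.pair_comm]
  · rw [← hz']
    ext w
    simp only [Finset.mem_insert, Finset.mem_singleton]
    tauto

/-- The six orders of a flag. -/
theorem flag_cases {a b c : Smp X} (h1 : sAdj a b) (h2 : sAdj b c) (h3 : sAdj a c) :
    (a.s ⊂ b.s ∧ b.s ⊂ c.s) ∨ (a.s ⊂ c.s ∧ c.s ⊂ b.s) ∨ (b.s ⊂ a.s ∧ a.s ⊂ c.s) ∨
      (b.s ⊂ c.s ∧ c.s ⊂ a.s) ∨ (c.s ⊂ a.s ∧ a.s ⊂ b.s) ∨ (c.s ⊂ b.s ∧ b.s ⊂ a.s) := by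
  rcases h1 with h1 | h1 <;> rcases h2 with h2 | h2 <;> rcases h3 with h3 | h3
  · exact Or.inl ⟨h1, h2⟩
  · exact Or.inl ⟨h1, h2⟩
  · exact Or.inr (Or.inl ⟨h3, h2⟩)
  · exact Or.inr (Or.inr (Or.inr (Or.inr (Or.inl ⟨h3, h1⟩))))
  · exact Or.inr (Or.inr (Or.inl ⟨h1, h3⟩))
  · exact Or.inr (Or.inr (Or.inr (Or.inl ⟨h2, h3⟩)))
  · exact Or.inr (Or.inr (Or.inr (Or.inr (Or.inr ⟨h2, h1⟩))))
  · exact Or.inr (Or.inr (Or.inr (Or.inr (Or.inr ⟨h2, h1⟩))))

/-- Three points of the plane are not on a line. -/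
def Ncol (p q r : ℂ) : Prop := cross (q - p) (r - p) ≠ 0

theorem Ncol.rot {p q r : ℂ} (h : Ncol p q r) : Ncol q r p := by
  unfold Ncol
  rw [cross_rot]
  exact h

theorem Ncol.flip {p q r : ℂ} (h : Ncol p q r) : Ncol p r q := by
  unfold Ncol
  rw [cross_flip]
  exact neg_ne_zero.2 h

theorem Ncol.ne {p q r : ℂ} (h : Ncol p q r) : p ≠ q := by
  rintro rfl
  apply h
  simp [cross]

theorem Ncol.ne' {p q r : ℂ} (h : Ncol p q r) : p ≠ r := h.flip.ne

/-- The barycenters of a flag are not on a line. -/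
theorem ncol_flag {ℓ : V → V → ℝ} {a b c : Smp X} (h1 : a.s ⊂ b.s) (h2 : b.s ⊂ c.s) {φ : V → ℂ}
    (hφ : Emb ℓ c.s φ) : Ncol (bc φ a) (bc φ b) (bc φ c) := by
  obtain ⟨x, y, z, hxy, hyz, hxz, ha, hb, hc⟩ := flag_eq h1 h2
  have h3 : cross (φ y - φ x) (φ z - φ x) ≠ 0 := hφ.nd x (by rw [hc]; simp) y (by rw [hc]; simp) z
    (by rw [hc]; simp) hxy hyz hxz
  unfold Ncol
  rw [bc_one φ ha, bc_two φ hb hxy, bc_three φ hc hxy hyz hxz]
  have h4 : cross ((2 : ℝ)⁻¹ • (φ x + φ y) - φ x) ((3 : ℝ)⁻¹ • (φ x + φ y + φ z) - φ x) =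
      6⁻¹ * cross (φ y - φ x) (φ z - φ x) := by
    simp only [cross, Complex.sub_re, Complex.sub_im, Complex.smul_re, Complex.smul_im,
      Complex.add_re, Complex.add_im, smul_eq_mul]
    ring
  rw [h4]
  exact mul_ne_zero (by norm_num) h3

/-- The lengths are positive. -/
theorem sl_pos {ℓ : V → V → ℝ} (hM : X.Metric ℓ) {a b : Smp X} (h : a.s ⊂ b.s) : 0 < sl ℓ a b := by
  have e1 := Finset.card_lt_card h
  have e3 := a.card_pos
  have e4 := b.card
  obtain ⟨φ, hφ⟩ := exists_emb hM b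
  rw [sl_eq hφ h.1 subset_rfl, dist_pos]
  have h3 : b.s.card = 2 ∨ (b.s.card = 3 ∧ a.s.card = 2) ∨ (b.s.card = 3 ∧ a.s.card = 1) := by omega
  rcases h3 with h3 | ⟨h3, h4⟩ | ⟨h3, h4⟩
  · obtain ⟨x, hx⟩ := Finset.card_eq_one.1 (show a.s.card = 1 by omega)
    obtain ⟨y, hy, hy'⟩ := Finset.exists_eq_insert_iff.2 ⟨h.1, show a.s.card + 1 = b.s.card by omega⟩
    rw [hx, Finset.mem_singleton] at hy
    rw [hx] at hy'
    rw [bc_one φ hx, bc_two φ hy'.symm hy]
    intro h5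
    have h6 : φ x = φ y := by
      have h7 : φ y - φ x = (2 : ℝ) • ((2 : ℝ)⁻¹ • (φ y + φ x) - φ x) := by
        rw [smul_sub, smul_smul, mul_inv_cancel₀ (by norm_num), one_smul, two_smul]
        ring
      rw [← h5, sub_self, smul_zero, sub_eq_zero] at h7
      exact h7.symm
    have h8 := hφ.dist x (by rw [← hy']; simp) y (by rw [← hy']; simp)
    have hne : x ≠ y := fun h' => hy h'.symm
    rw [h6, dist_self, l0_of_ne ℓ hne] at h8
    have h9 := hM.pos x y (b.adj x (by rw [← hy']; simp) y (by rw [← hy']; simp) hne)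
    exact h9.ne h8
  · -- a vertex below
    obtain ⟨x, y, hxy, hx⟩ := Finset.card_eq_two.1 h4
    have h5 : (pt X x).s ⊂ a.s := by
      rw [hx]
      refine Finset.ssubset_iff_subset_ne.2 ⟨?_, ?_⟩
      · intro w hw
        have : w = x := Finset.mem_singleton.1 hw
        rw [this]
        simp
      · intro h'
        have : y ∈ (pt X x).s := by rw [h']; simp
        exact hxy (Finset.mem_singleton.1 this).symm
    exact (ncol_flag h5 h hφ).rot.ne
  · -- an edge between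
    obtain ⟨x, hx⟩ := Finset.card_eq_one.1 h4
    obtain ⟨y, hyb, hya⟩ := Finset.exists_of_ssubset h
    have hxb : x ∈ b.s := h.1 (by rw [hx]; simp)
    have hne : x ≠ y := fun h' => hya (by rw [hx, h']; simp)
    have h5 : a.s ⊂ (ed (b.adj x hxb y hyb hne)).s := by
      rw [hx]
      refine Finset.ssubset_iff_subset_ne.2 ⟨?_, ?_⟩
      · intro w hw
        have : w = x := Finset.mem_singleton.1 hw
        rw [this]
        exact Finset.mem_insert_self _ _
      · intro h'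
        have : y ∈ ({x} : Finset V) := by
          rw [h']
          exact Finset.mem_insert_of_mem (Finset.mem_singleton_self _)
        exact hne (Finset.mem_singleton.1 this).symm
    have h6 : (ed (b.adj x hxb y hyb hne)).s ⊂ b.s := by
      refine Finset.ssubset_iff_subset_ne.2 ⟨?_, ?_⟩
      · intro w hw
        rcases Finset.mem_insert.1 hw with rfl | hw
        · exact hxb
        · rw [Finset.mem_singleton.1 hw]
          exact hyb
      · intro h'
        have : (ed (b.adj x hxb y hyb hne)).s.card = 2 := Finset.card_pair hne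
        rw [h', h3] at this
        omega
    exact (ncol_flag h5 h6 hφ).ne'

theorem sAdj_pos {ℓ : V → V → ℝ} (hM : X.Metric ℓ) {a b : Smp X} (h : sAdj a b) :
    0 < sl ℓ a b := by
  rcases h with h | h
  · exact sl_pos hM h
  · rw [sl_symm]
    exact sl_pos hM h

/-- For three pairwise incident simplices there is a Euclidean picture in which their barycenters
are not on a line. -/
theorem exists_pic {ℓ : V → V → ℝ} (hM : X.Metric ℓ) {a b c : Smp X} (h1 : sAdj a b)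
    (h2 : sAdj b c) (h3 : sAdj a c) : ∃ φ : V → ℂ, sl ℓ a b = dist (bc φ a) (bc φ b) ∧
      sl ℓ b c = dist (bc φ b) (bc φ c) ∧ sl ℓ a c = dist (bc φ a) (bc φ c) ∧
      Ncol (bc φ a) (bc φ b) (bc φ c) := by
  rcases flag_cases h1 h2 h3 with ⟨h4, h5⟩ | ⟨h4, h5⟩ | ⟨h4, h5⟩ | ⟨h4, h5⟩ | ⟨h4, h5⟩ | ⟨h4, h5⟩
  · obtain ⟨φ, hφ⟩ := exists_emb hM c
    exact ⟨φ, sl_eq hφ (h4.1.trans h5.1) h5.1, sl_eq hφ h5.1 subset_rfl,
      sl_eq hφ (h4.1.trans h5.1) subset_rfl, ncol_flag h4 h5 hφ⟩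
  · obtain ⟨φ, hφ⟩ := exists_emb hM b
    exact ⟨φ, sl_eq hφ (h4.1.trans h5.1) subset_rfl, sl_eq hφ subset_rfl h5.1,
      sl_eq hφ (h4.1.trans h5.1) h5.1, (ncol_flag h4 h5 hφ).flip⟩
  · obtain ⟨φ, hφ⟩ := exists_emb hM c
    exact ⟨φ, sl_eq hφ h5.1 (h4.1.trans h5.1), sl_eq hφ (h4.1.trans h5.1) subset_rfl,
      sl_eq hφ h5.1 subset_rfl, (ncol_flag h4 h5 hφ).flip.rot.rot⟩
  · obtain ⟨φ, hφ⟩ := exists_emb hM a
    exact ⟨φ, sl_eq hφ subset_rfl (h4.1.trans h5.1), sl_eq hφ (h4.1.trans h5.1) h5.1,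
      sl_eq hφ subset_rfl h5.1, (ncol_flag h4 h5 hφ).rot.rot⟩
  · obtain ⟨φ, hφ⟩ := exists_emb hM b
    exact ⟨φ, sl_eq hφ h5.1 subset_rfl, sl_eq hφ subset_rfl (h4.1.trans h5.1),
      sl_eq hφ h5.1 (h4.1.trans h5.1), (ncol_flag h4 h5 hφ).rot⟩
  · obtain ⟨φ, hφ⟩ := exists_emb hM a
    exact ⟨φ, sl_eq hφ subset_rfl h5.1, sl_eq hφ h5.1 (h4.1.trans h5.1),
      sl_eq hφ subset_rfl (h4.1.trans h5.1), (ncol_flag h4 h5 hφ).flip.rot⟩

theorem sd_metric {ℓ : V → V → ℝ} (hM : X.Metric ℓ) : (sd X).Metric (sl ℓ) where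
  symm := sl_symm ℓ
  pos := fun _ _ h => sAdj_pos hM h
  tri := by
    rintro a b c ⟨h1, h2, h3⟩
    obtain ⟨φ, e1, e2, e3, e4⟩ := exists_pic hM h1 h2 h3
    rw [e1, e2, e3]
    exact dist_lt e4

/-- The sum of the angles of a triangle. -/
theorem angle_sum {p q r : ℂ} (h : Ncol p q r) :
    InnerProductGeometry.angle (q - p) (r - p) + InnerProductGeometry.angle (r - q) (p - q) +
      InnerProductGeometry.angle (p - r) (q - r) = Real.pi := by
  have h1 := InnerProductGeometry.angle_add_angle_sub_add_angle_sub_eq_pi (q - p)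
    (y := r - p) (sub_ne_zero.2 h.ne'.symm)
  have h2 : InnerProductGeometry.angle (q - p) (q - p - (r - p)) =
      InnerProductGeometry.angle (r - q) (p - q) := by
    rw [InnerProductGeometry.angle_comm (r - q), ← InnerProductGeometry.angle_neg_neg (p - q)]
    congr 1 <;> ring
  have h3 : InnerProductGeometry.angle (r - p) (r - p - (q - p)) =
      InnerProductGeometry.angle (p - r) (q - r) := by
    rw [← InnerProductGeometry.angle_neg_neg (p - r)]
    congr 1 <;> ring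
  rw [h2, h3] at h1
  exact h1

/-- The sum of the angles of a triangle. -/
theorem ang_sum {ℓ : V → V → ℝ} (hM : X.Metric ℓ) {x y z : V} (h : X.tri x y z) :
    ang ℓ x y z + ang ℓ y z x + ang ℓ z x y = Real.pi := by
  obtain ⟨φ, hφ⟩ := exists_emb_tri hM h
  obtain ⟨h1, h2, h3⟩ := tri_ne h
  have hx : x ∈ ({x, y, z} : Finset V) := by simp
  have hy : y ∈ ({x, y, z} : Finset V) := by simp
  have hz : z ∈ ({x, y, z} : Finset V) := by simp
  have d : ∀ u ∈ ({x, y, z} : Finset V), ∀ v ∈ ({x, y, z} : Finset V), u ≠ v →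
      ℓ u v = dist (φ u) (φ v) := fun u hu v hv h => by rw [hφ.dist u hu v hv, l0_of_ne ℓ h]
  rw [ang_eq (P := φ) (d x hx y hy h1) (d x hx z hz h3) (d y hy z hz h2),
    ang_eq (P := φ) (d y hy z hz h2) (d y hy x hx h1.symm) (d z hz x hx h3.symm),
    ang_eq (P := φ) (d z hz x hx h3.symm) (d z hz y hy h2.symm) (d x hx y hy h1)]
  exact angle_sum (hφ.nd x hx y hy z hz h1 h2 h3)

/-- The diagonal of a parallelogram splits the angle. -/
theorem angle_split (u : ℂ) {v : ℂ} (hv : v ≠ 0) :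
    InnerProductGeometry.angle u (u + v) + InnerProductGeometry.angle (u + v) v =
      InnerProductGeometry.angle u v := by
  have h1 := InnerProductGeometry.angle_add_angle_sub_add_angle_sub_eq_pi (u + v) (y := v) hv
  rw [add_sub_cancel_right, show v - (u + v) = -u by ring, InnerProductGeometry.angle_neg_right,
    InnerProductGeometry.angle_comm v u, InnerProductGeometry.angle_comm (u + v) u] at h1
  linarith

theorem ang_comm {W : Type} {ℓ : W → W → ℝ} (h : ∀ u v, ℓ u v = ℓ v u) (v u w : W) :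
    ang ℓ v u w = ang ℓ v w u := by
  unfold ang
  rw [h u w, add_comm (ℓ v u ^ 2), mul_assoc, mul_comm (ℓ v u), ← mul_assoc]

/-- The angles at a vertex. -/
theorem angV {ℓ : V → V → ℝ} (hM : X.Metric ℓ) {x y z : V} (h : X.tri x y z) {A B C T : Smp X}
    (hA : A.s = {x}) (hB : B.s = {x, y}) (hC : C.s = {x, z}) (hT : T.s = {x, y, z}) :
    ang (sl ℓ) A B T + ang (sl ℓ) A T C = ang ℓ x y z := by
  obtain ⟨φ, hφ⟩ := exists_emb_tri hM h
  obtain ⟨h1, h2, h3⟩ := tri_ne h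
  have hx : x ∈ ({x, y, z} : Finset V) := by simp
  have hy : y ∈ ({x, y, z} : Finset V) := by simp
  have hz : z ∈ ({x, y, z} : Finset V) := by simp
  have d : ∀ u ∈ ({x, y, z} : Finset V), ∀ v ∈ ({x, y, z} : Finset V), u ≠ v →
      ℓ u v = dist (φ u) (φ v) := fun u hu v hv h => by rw [hφ.dist u hu v hv, l0_of_ne ℓ h]
  have sA : A.s ⊆ {x, y, z} := by rw [hA]; intro w; simp; tauto
  have sB : B.s ⊆ {x, y, z} := by rw [hB]; intro w; simp; tauto
  have sC : C.s ⊆ {x, y, z} := by rw [hC]; intro w; simp; tauto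
  have sT : T.s ⊆ {x, y, z} := by rw [hT]
  rw [ang_eq (P := φ) (d x hx y hy h1) (d x hx z hz h3) (d y hy z hz h2),
    ang_eq (P := bc φ) (sl_eq hφ sA sB) (sl_eq hφ sA sT) (sl_eq hφ sB sT),
    ang_eq (P := bc φ) (sl_eq hφ sA sT) (sl_eq hφ sA sC) (sl_eq hφ sT sC), bc_one φ hA,
    bc_two φ hB h1, bc_two φ hC h3, bc_three φ hT h1 h2 h3]
  have e1 : (2 : ℝ)⁻¹ • (φ x + φ y) - φ x = (2 : ℝ)⁻¹ • (φ y - φ x) := by
    apply Complex.ext <;> simp <;> ring
  have e2 : (2 : ℝ)⁻¹ • (φ x + φ z) - φ x = (2 : ℝ)⁻¹ • (φ z - φ x) := by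
    apply Complex.ext <;> simp <;> ring
  have e3 : (3 : ℝ)⁻¹ • (φ x + φ y + φ z) - φ x = (3 : ℝ)⁻¹ • ((φ y - φ x) + (φ z - φ x)) := by
    apply Complex.ext <;> simp <;> ring
  rw [e1, e2, e3, InnerProductGeometry.angle_smul_left_of_pos _ _ (by norm_num),
    InnerProductGeometry.angle_smul_left_of_pos _ _ (by norm_num),
    InnerProductGeometry.angle_smul_right_of_pos _ _ (by norm_num),
    InnerProductGeometry.angle_smul_right_of_pos _ _ (by norm_num)]
  refine angle_split _ ?_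
  have := (show Ncol (φ x) (φ y) (φ z) from hφ.nd x hx y hy z hz h1 h2 h3).ne'
  exact sub_ne_zero.2 this.symm

/-- The angles at the midpoint of an edge. -/
theorem angM {ℓ : V → V → ℝ} (hM : X.Metric ℓ) {x y : V} (hxy : x ≠ y) {A B E T : Smp X}
    (hA : A.s = {x}) (hB : B.s = {y}) (hE : E.s = {x, y}) (hT : E.s ⊆ T.s) :
    ang (sl ℓ) E A T + ang (sl ℓ) E T B = Real.pi := by
  obtain ⟨φ, hφ⟩ := exists_emb hM T
  have sA : A.s ⊆ T.s := by
    refine subset_trans ?_ hT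
    rw [hA, hE]
    simp
  have sB : B.s ⊆ T.s := by
    refine subset_trans ?_ hT
    rw [hB, hE]
    simp
  rw [ang_eq (P := bc φ) (sl_eq hφ hT sA) (sl_eq hφ hT subset_rfl) (sl_eq hφ sA subset_rfl),
    ang_eq (P := bc φ) (sl_eq hφ hT subset_rfl) (sl_eq hφ hT sB) (sl_eq hφ subset_rfl sB)]
  have e1 : bc φ B - bc φ E = - (bc φ A - bc φ E) := by
    rw [bc_one φ hA, bc_one φ hB, bc_two φ hE hxy]
    apply Complex.ext <;> simp <;> ring
  rw [e1, InnerProductGeometry.angle_neg_right, InnerProductGeometry.angle_comm (bc φ T - bc φ E)]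
  ring

/-- The sum of the angles of a small triangle. -/
theorem angS {ℓ : V → V → ℝ} (hM : X.Metric ℓ) {A E T : Smp X} (h1 : A.s ⊂ E.s) (h2 : E.s ⊂ T.s) :
    ang (sl ℓ) A E T + ang (sl ℓ) E A T + ang (sl ℓ) T A E = Real.pi := by
  have h3 := ang_sum (sd_metric hM) (x := A) (y := E) (z := T)
    ⟨Or.inl h1, Or.inl h2, Or.inl (h1.trans h2)⟩
  rw [ang_comm (sl_symm ℓ) E T A] at h3
  exact h3

/-- The angles at the barycenter. -/
theorem angC {ℓ : V → V → ℝ} (hM : X.Metric ℓ) {x y z : V} (hxy : x ≠ y) (hyz : y ≠ z)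
    (hxz : x ≠ z) {A B C D E F T : Smp X} (hT : T.s = {x, y, z}) (hA : A.s = {x}) (hB : B.s = {y})
    (hC : C.s = {z}) (hD : D.s = {x, y}) (hE : E.s = {y, z}) (hF : F.s = {x, z}) :
    (ang (sl ℓ) T A D + ang (sl ℓ) T D B) + (ang (sl ℓ) T B E + ang (sl ℓ) T E C) +
      (ang (sl ℓ) T C F + ang (sl ℓ) T F A) = 2 * Real.pi := by
  have hx : x ∈ T.s := by rw [hT]; simp
  have hy : y ∈ T.s := by rw [hT]; simp
  have hz : z ∈ T.s := by rw [hT]; simp
  have htri := T.tri x hx y hy z hz hxy hyz hxz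
  have s1 : ∀ {p q : V} {P Q : Smp X}, p ≠ q → P.s = {p} → Q.s = {p, q} → P.s ⊂ Q.s := by
    intro p q P Q hpq hP hQ
    refine Finset.ssubset_iff_subset_ne.2 ⟨?_, ?_⟩
    · rw [hP, hQ]; simp
    · intro h'
      have : P.s.card = Q.s.card := by rw [h']
      rw [hP, hQ, Finset.card_pair hpq, Finset.card_singleton] at this
      omega
  have s2 : ∀ {p q : V} {Q : Smp X}, p ≠ q → p ∈ T.s → q ∈ T.s → Q.s = {p, q} → Q.s ⊂ T.s := by
    intro p q Q hpq hp hq hQ
    refine Finset.ssubset_iff_subset_ne.2 ⟨?_, ?_⟩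
    · rw [hQ]
      intro w hw
      rcases Finset.mem_insert.1 hw with rfl | hw
      · exact hp
      · rw [Finset.mem_singleton.1 hw]
        exact hq
    · intro h'
      have h1 : x ∉ ({y, z} : Finset V) := by simp [hxy, hxz]
      have : T.s.card = 3 := by rw [hT, Finset.card_insert_of_notMem h1, Finset.card_pair hyz]
      rw [← h', hQ, Finset.card_pair hpq] at this
      omega
  have t1 := angS hM (s1 hxy hA hD) (s2 hxy hx hy hD)
  have t2 := angS hM (s1 hxy.symm hB (by rw [hD, Finset.pair_comm])) (s2 hxy hx hy hD)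
  have t3 := angS hM (s1 hyz hB hE) (s2 hyz hy hz hE)
  have t4 := angS hM (s1 hyz.symm hC (by rw [hE, Finset.pair_comm])) (s2 hyz hy hz hE)
  have t5 := angS hM (s1 hxz.symm hC (by rw [hF, Finset.pair_comm])) (s2 hxz hx hz hF)
  have t6 := angS hM (s1 hxz hA hF) (s2 hxz hx hz hF)
  have v1 := angV hM htri hA hD hF hT
  have v2 := angV hM (X.tri_rot _ _ _ htri) hB hE (by rw [hD, Finset.pair_comm])
    (T := T) (by rw [hT]; ext w; simp only [Finset.mem_insert, Finset.mem_singleton]; tauto)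
  have v3 := angV hM (X.tri_rot _ _ _ (X.tri_rot _ _ _ htri)) hC (by rw [hF, Finset.pair_comm])
    (by rw [hE, Finset.pair_comm])
    (T := T) (by rw [hT]; ext w; simp only [Finset.mem_insert, Finset.mem_singleton]; tauto)
  have m1 := angM hM hxy hA hB hD (T := T) (s2 hxy hx hy hD).1
  have m2 := angM hM hyz hB hC hE (T := T) (s2 hyz hy hz hE).1
  have m3 := angM hM hxz hA hC hF (T := T) (s2 hxz hx hz hF).1
  have s := ang_sum hM htri
  have c := ang_comm (sl_symm (X := X) ℓ)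
  rw [c A T F] at v1
  rw [c B T D] at v2
  rw [c C T E] at v3
  rw [c D T B] at m1
  rw [c E T C] at m2
  rw [c F T C] at m3
  rw [c T D B, c T E C, c T F A]
  linarith

end Pool.Agent.Helper13.GT
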