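import Pool.Agent.Helper13.GT.SdDefs

/-!
# The barycentric subdivision: lengths, Euclidean triangles
-/

set_option autoImplicit false

namespace Pool.Agent.Helper13.GT

open Relation Pool.Agent.Helper29.BA Pool.Agent.Helper29.PA Pool.Agent.Helper3.FJ
  Pool.Agent.Helper3.FJ.Cpx

open scoped Classical

variable {V : Type} {X : Cpx V}

/-- The weights of the barycenter. -/
noncomputable def wt (s : Finset V) (x : V) : ℝ := if x ∈ s then (s.card : ℝ)⁻¹ else 0

theorem sum_wt {s T : Finset V} (hs : s.Nonempty) (h : s ⊆ T) : ∑ x ∈ T, wt s x = 1 := by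
  have h1 : ∑ x ∈ T, wt s x = ∑ x ∈ s, wt s x := by
    refine (Finset.sum_subset h fun x _ hx => ?_).symm
    exact if_neg hx
  have h2 : ∑ x ∈ s, wt s x = ∑ x ∈ s, (s.card : ℝ)⁻¹ := Finset.sum_congr rfl fun x hx => if_pos hx
  rw [h1, h2, Finset.sum_const, nsmul_eq_mul]
  exact mul_inv_cancel₀ (by exact_mod_cast (Finset.card_pos.2 hs).ne')

/-- The lengths with `0` on the diagonal. -/
noncomputable def l0 (ℓ : V → V → ℝ) (x y : V) : ℝ := if x = y then 0 else ℓ x y

/-- The distance of the barycenters of two faces of a simplex. -/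
noncomputable def sl (ℓ : V → V → ℝ) (a b : Smp X) : ℝ :=
  Real.sqrt ((-∑ x ∈ a.s ∪ b.s, ∑ y ∈ a.s ∪ b.s, (wt a.s x - wt b.s x) * (wt a.s y - wt b.s y) *
    (l0 ℓ x y * l0 ℓ x y)) / 2)

theorem sl_symm (ℓ : V → V → ℝ) (a b : Smp X) : sl ℓ a b = sl ℓ b a := by
  unfold sl
  rw [Finset.union_comm]
  congr 3
  refine Finset.sum_congr rfl fun x _ => Finset.sum_congr rfl fun y _ => ?_
  ring

theorem wt_smul {G : Type} [Group G] [MulAction G V] [h : Fact (X.Acts G)] (g : G) (a : Smp X)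
    (x : V) : wt (g • a).s (g • x) = wt a.s x := by
  unfold wt
  rw [card_smul_s]
  by_cases hx : x ∈ a.s
  · rw [if_pos (smul_mem_smul_s.2 hx), if_pos hx]
  · rw [if_neg (fun h' => hx (smul_mem_smul_s.1 h')), if_neg hx]

theorem sl_smul {G : Type} [Group G] [MulAction G V] [h : Fact (X.Acts G)] {ℓ : V → V → ℝ}
    (hI : ∀ (g : G) u v, ℓ (g • u) (g • v) = ℓ u v) (g : G) (a b : Smp X) :
    sl ℓ (g • a) (g • b) = sl ℓ a b := by
  unfold sl
  have h1 : (g • a).s ∪ (g • b).s = (a.s ∪ b.s).map (MulAction.toPerm g).toEmbedding := by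
    rw [smul_s, smul_s, Finset.map_union]
  rw [h1, Finset.sum_map]
  congr 3
  refine Finset.sum_congr rfl fun x _ => ?_
  rw [Finset.sum_map]
  refine Finset.sum_congr rfl fun y _ => ?_
  simp only [Equiv.coe_toEmbedding, MulAction.toPerm_apply, wt_smul]
  have h2 : l0 ℓ (g • x) (g • y) = l0 ℓ x y := by
    unfold l0
    by_cases hxy : x = y
    · rw [if_pos (by rw [hxy]), if_pos hxy]
    · rw [if_neg (fun h' => hxy (smul_left_cancel g h')), if_neg hxy, hI]
  rw [h2]

/-- The determinant. -/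
def cross (p q : ℂ) : ℝ := p.re * q.im - p.im * q.re

/-- Euclidean simplices. -/
structure Emb (ℓ : V → V → ℝ) (T : Finset V) (φ : V → ℂ) : Prop where
  dist : ∀ x ∈ T, ∀ y ∈ T, dist (φ x) (φ y) = l0 ℓ x y
  nd : ∀ x ∈ T, ∀ y ∈ T, ∀ z ∈ T, x ≠ y → y ≠ z → x ≠ z → cross (φ y - φ x) (φ z - φ x) ≠ 0

/-- The barycenters. -/
noncomputable def bc (φ : V → ℂ) (a : Smp X) : ℂ := ∑ x ∈ a.s, (a.s.card : ℝ)⁻¹ • φ x

theorem bc_eq (φ : V → ℂ) (a : Smp X) {T : Finset V} (h : a.s ⊆ T) :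
    bc φ a = ∑ x ∈ T, wt a.s x • φ x := by
  have h1 : ∑ x ∈ T, wt a.s x • φ x = ∑ x ∈ a.s, wt a.s x • φ x := by
    refine (Finset.sum_subset h fun x _ hx => ?_).symm
    have : wt a.s x = 0 := if_neg hx
    rw [this, zero_smul]
  rw [h1]
  refine Finset.sum_congr rfl fun x hx => ?_
  have : wt a.s x = (a.s.card : ℝ)⁻¹ := if_pos hx
  rw [this]

theorem sl_eq {ℓ : V → V → ℝ} {T : Finset V} {φ : V → ℂ} (hE : Emb ℓ T φ) {a b : Smp X}
    (ha : a.s ⊆ T) (hb : b.s ⊆ T) : sl ℓ a b = dist (bc φ a) (bc φ b) := by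
  have h1 := sum_wt a.ne (Finset.subset_union_left (s₁ := a.s) (s₂ := b.s))
  have h2 := sum_wt b.ne (Finset.subset_union_right (s₁ := a.s) (s₂ := b.s))
  have h3 := EuclideanGeometry.dist_affineCombination (s := a.s ∪ b.s) φ h1 h2
  simp only at h3
  rw [Finset.affineCombination_eq_linear_combination _ _ _ h1,
    Finset.affineCombination_eq_linear_combination _ _ _ h2, ← bc_eq φ a Finset.subset_union_left,
    ← bc_eq φ b Finset.subset_union_right] at h3
  have h4 : ∑ x ∈ a.s ∪ b.s, ∑ y ∈ a.s ∪ b.s, (wt a.s x - wt b.s x) * (wt a.s y - wt b.s y) *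
      (l0 ℓ x y * l0 ℓ x y) = ∑ x ∈ a.s ∪ b.s, ∑ y ∈ a.s ∪ b.s, (wt a.s - wt b.s) x *
      (wt a.s - wt b.s) y * (dist (φ x) (φ y) * dist (φ x) (φ y)) := by
    refine Finset.sum_congr rfl fun x hx => Finset.sum_congr rfl fun y hy => ?_
    rw [hE.dist x (Finset.union_subset ha hb hx) y (Finset.union_subset ha hb hy)]
    rfl
  unfold sl
  rw [h4, ← h3, Real.sqrt_mul_self dist_nonneg]

theorem bc_one (φ : V → ℂ) {a : Smp X} {x : V} (h : a.s = {x}) : bc φ a = φ x := by
  unfold bc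
  rw [h]
  simp

theorem bc_two (φ : V → ℂ) {a : Smp X} {x y : V} (h : a.s = {x, y}) (hxy : x ≠ y) :
    bc φ a = (2 : ℝ)⁻¹ • (φ x + φ y) := by
  unfold bc
  rw [h, Finset.card_pair hxy, Finset.sum_pair hxy, ← smul_add]
  norm_num

theorem bc_three (φ : V → ℂ) {a : Smp X} {x y z : V} (h : a.s = {x, y, z}) (hxy : x ≠ y)
    (hyz : y ≠ z) (hxz : x ≠ z) : bc φ a = (3 : ℝ)⁻¹ • (φ x + φ y + φ z) := by
  unfold bc
  have h1 : x ∉ ({y, z} : Finset V) := by simp [hxy, hxz]
  rw [h, Finset.card_insert_of_notMem h1, Finset.card_pair hyz, Finset.sum_insert h1,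
    Finset.sum_pair hyz, ← smul_add, ← smul_add, add_assoc]
  norm_num

/-- Strict triangle inequalities. -/
theorem dist_lt {p q r : ℂ} (h : cross (q - p) (r - p) ≠ 0) : dist p r < dist p q + dist q r := by
  refine lt_of_le_of_ne (dist_triangle _ _ _) fun h' => h ?_
  obtain ⟨t, -, rfl⟩ := dist_add_dist_eq_iff.1 h'.symm
  simp only [AffineMap.lineMap_apply, vsub_eq_sub, vadd_eq_add, add_sub_cancel_right, cross,
    Complex.smul_re, Complex.smul_im, smul_eq_mul]
  ring

theorem cross_rot (p q r : ℂ) : cross (r - q) (p - q) = cross (q - p) (r - p) := by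
  simp only [cross, Complex.sub_re, Complex.sub_im]
  ring

theorem cross_flip (p q r : ℂ) : cross (r - p) (q - p) = - cross (q - p) (r - p) := by
  simp only [cross, Complex.sub_re, Complex.sub_im]
  ring

theorem l0_of_ne (ℓ : V → V → ℝ) {x y : V} (h : x ≠ y) : l0 ℓ x y = ℓ x y := if_neg h

theorem l0_self (ℓ : V → V → ℝ) (x : V) : l0 ℓ x x = 0 := if_pos rfl

/-- Euclidean triangles. -/
theorem exists_emb_tri {ℓ : V → V → ℝ} (hM : X.Metric ℓ) {a b c : V} (h : X.tri a b c) :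
    ∃ φ : V → ℂ, Emb ℓ {a, b, c} φ := by
  obtain ⟨hab, hbc, hac⟩ := tri_ne h
  obtain ⟨aab, abc, aac⟩ := tri_adj' h
  have h231 := X.tri_rot _ _ _ h
  have h312 := X.tri_rot _ _ _ h231
  have h213 := X.tri_flip _ _ _ h
  have h132 := X.tri_rot _ _ _ h213
  have h321 := X.tri_rot _ _ _ h132
  have p1 := hM.pos _ _ aab
  have p2 := hM.pos _ _ abc
  have p3 := hM.pos _ _ aac
  have t1 := hM.tri _ _ _ h
  have t2 := hM.tri _ _ _ h213
  have t3 := hM.tri _ _ _ h132
  have s1 := hM.symm b a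
  have s2 := hM.symm c b
  have s3 := hM.symm c a
  set L := ℓ a b with hL
  set M := ℓ a c with hM'
  set N := ℓ b c with hN
  -- coordinates of the third vertex
  let p : ℝ := (L ^ 2 + M ^ 2 - N ^ 2) / (2 * L)
  let q : ℝ := Real.sqrt (M ^ 2 - p ^ 2)
  have hp : 2 * L * p = L ^ 2 + M ^ 2 - N ^ 2 := by
    simp only [p]
    field_simp
  have hpos : 0 < M ^ 2 - p ^ 2 := by
    have e1 : 0 < (2 * L * M - (L ^ 2 + M ^ 2 - N ^ 2)) := by nlinarith
    have e2 : 0 < (2 * L * M + (L ^ 2 + M ^ 2 - N ^ 2)) := by nlinarith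
    have e3 : 0 < (2 * L) ^ 2 * (M ^ 2 - p ^ 2) := by
      have : (2 * L) ^ 2 * (M ^ 2 - p ^ 2) = (2 * L * M - (L ^ 2 + M ^ 2 - N ^ 2)) *
          (2 * L * M + (L ^ 2 + M ^ 2 - N ^ 2)) := by
        rw [← hp]
        ring
      rw [this]
      exact mul_pos e1 e2
    exact (pos_iff_pos_of_mul_pos e3).1 (by positivity)
  have hq : q ^ 2 = M ^ 2 - p ^ 2 := Real.sq_sqrt hpos.le
  have hq0 : 0 < q := Real.sqrt_pos.2 hpos
  let φ : V → ℂ := fun x => if x = a then 0 else if x = b then (L : ℂ) else ⟨p, q⟩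
  have fa : φ a = 0 := if_pos rfl
  have fb : φ b = (L : ℂ) := by
    simp only [φ]
    rw [if_neg hab.symm, if_true]
  have fc : φ c = ⟨p, q⟩ := by
    simp only [φ]
    rw [if_neg hac.symm, if_neg hbc.symm]
  have dab : dist (φ a) (φ b) = L := by
    rw [fa, fb, dist_comm, dist_zero_right, Complex.norm_real, Real.norm_of_nonneg p1.le]
  have dac : dist (φ a) (φ c) = M := by
    rw [fa, fc, dist_comm, dist_zero_right, Complex.norm_def, Complex.normSq_mk, ← sq, ← sq, hq,
      add_sub_cancel, Real.sqrt_sq p3.le]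
  have dbc : dist (φ b) (φ c) = N := by
    rw [fb, fc, Complex.dist_eq, Complex.norm_def, Complex.normSq_apply]
    simp only [Complex.sub_re, Complex.ofReal_re, Complex.sub_im, Complex.ofReal_im]
    have : (L - p) * (L - p) + (0 - q) * (0 - q) = N ^ 2 := by
      have : (L - p) * (L - p) + (0 - q) * (0 - q) = L ^ 2 - 2 * L * p + p ^ 2 + q ^ 2 := by ring
      rw [this, hq, hp]
      ring
    rw [this, Real.sqrt_sq p2.le]
  have hcr : cross (φ b - φ a) (φ c - φ a) ≠ 0 := by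
    rw [fa, fb, fc]
    simp only [cross, Complex.ofReal_re, Complex.ofReal_im, sub_zero, zero_mul]
    exact (mul_pos p1 hq0).ne'
  refine ⟨φ, ?_, ?_⟩
  · intro x hx y hy
    simp only [Finset.mem_insert, Finset.mem_singleton] at hx hy
    rcases hx with rfl | rfl | rfl <;> rcases hy with rfl | rfl | rfl
    · rw [dist_self, l0_self]
    · rw [dab, l0_of_ne _ hab]
    · rw [dac, l0_of_ne _ hac]
    · rw [dist_comm, dab, l0_of_ne _ hab.symm, s1]
    · rw [dist_self, l0_self]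
    · rw [dbc, l0_of_ne _ hbc]
    · rw [dist_comm, dac, l0_of_ne _ hac.symm, s3]
    · rw [dist_comm, dbc, l0_of_ne _ hbc.symm, s2]
    · rw [dist_self, l0_self]
  · have c2 : cross (φ c - φ b) (φ a - φ b) ≠ 0 := by rw [cross_rot]; exact hcr
    have c3 : cross (φ a - φ c) (φ b - φ c) ≠ 0 := by rw [cross_rot]; exact c2
    have c1' : cross (φ c - φ a) (φ b - φ a) ≠ 0 := by rw [cross_flip]; exact neg_ne_zero.2 hcr
    have c2' : cross (φ a - φ b) (φ c - φ b) ≠ 0 := by rw [cross_flip]; exact neg_ne_zero.2 c2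
    have c3' : cross (φ b - φ c) (φ a - φ c) ≠ 0 := by rw [cross_flip]; exact neg_ne_zero.2 c3
    intro x hx y hy z hz h1 h2 h3
    simp only [Finset.mem_insert, Finset.mem_singleton] at hx hy hz
    rcases hx with rfl | rfl | rfl <;> rcases hy with rfl | rfl | rfl <;>
      rcases hz with rfl | rfl | rfl <;>
      first
      | exact (h1 rfl).elim
      | exact (h2 rfl).elim
      | exact (h3 rfl).elim
      | assumption

/-- Segments. -/
theorem exists_emb_edge {ℓ : V → V → ℝ} (hM : X.Metric ℓ) {a b : V} (h : X.adj a b) :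
    ∃ φ : V → ℂ, Emb ℓ {a, b} φ := by
  have hab := adj_ne h
  have p1 := hM.pos _ _ h
  let φ : V → ℂ := fun x => if x = a then 0 else (ℓ a b : ℂ)
  have fa : φ a = 0 := if_pos rfl
  have fb : φ b = (ℓ a b : ℂ) := if_neg hab.symm
  have dab : dist (φ a) (φ b) = ℓ a b := by
    rw [fa, fb, dist_comm, dist_zero_right, Complex.norm_real, Real.norm_of_nonneg p1.le]
  refine ⟨φ, ?_, ?_⟩
  · intro x hx y hy
    simp only [Finset.mem_insert, Finset.mem_singleton] at hx hy
    rcases hx with rfl | rfl <;> rcases hy with rfl | rfl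
    · rw [dist_self, l0_self]
    · rw [dab, l0_of_ne _ hab]
    · rw [dist_comm, dab, l0_of_ne _ hab.symm, hM.symm]
    · rw [dist_self, l0_self]
  · intro x hx y hy z hz h1 h2 h3
    simp only [Finset.mem_insert, Finset.mem_singleton] at hx hy hz
    exfalso
    rcases hx with rfl | rfl <;> rcases hy with rfl | rfl <;> rcases hz with rfl | rfl <;>
      simp_all

/-- The angles are the angles of the plane. -/
theorem ang_eq {W : Type} {ℓ : W → W → ℝ} {P : W → ℂ} {v u w : W} (h1 : ℓ v u = dist (P v) (P u))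
    (h2 : ℓ v w = dist (P v) (P w)) (h3 : ℓ u w = dist (P u) (P w)) :
    ang ℓ v u w = InnerProductGeometry.angle (P u - P v) (P w - P v) := by
  unfold ang InnerProductGeometry.angle
  rw [real_inner_eq_norm_mul_self_add_norm_mul_self_sub_norm_sub_mul_self_div_two, h1, h2, h3,
    sub_sub_sub_cancel_right, dist_comm (P v) (P u), dist_comm (P v) (P w), dist_eq_norm,
    dist_eq_norm, dist_eq_norm, div_div]
  congr 1
  ring

end Pool.Agent.Helper13.GT
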