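import Pool.Agent.Helper13.GT.SdGeo

/-!
# The barycentric subdivision: the link condition
-/

set_option autoImplicit false

namespace Pool.Agent.Helper13.GT

open Relation Pool.Agent.Helper29.BA Pool.Agent.Helper29.PA Pool.Agent.Helper3.FJ
  Pool.Agent.Helper3.FJ.Cpx

open scoped Classical

variable {V : Type} {X : Cpx V}

/-- The link condition for periodic sequences. -/
theorem link_of_nat {ℓ : V → V → ℝ} (hL : X.LinkCond ℓ) (v : V) {n : ℕ} (hn : 3 ≤ n) (Y : ℕ → V)
    (hper : ∀ i, Y (i + n) = Y i) (hinj : ∀ i < n, ∀ j < n, Y i = Y j → i = j)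
    (ht : ∀ i, X.tri v (Y i) (Y (i + 1))) :
    2 * Real.pi ≤ ∑ i ∈ Finset.range n, ang ℓ v (Y i) (Y (i + 1)) := by
  obtain ⟨m, rfl⟩ : ∃ m, n = m + 3 := ⟨n - 3, by omega⟩
  have hP : Function.Periodic Y (m + 3) := hper
  have hs : ∀ i : ZMod (m + 3), Y (i + 1).val = Y (i.val + 1) := by
    intro i
    rw [ZMod.val_add, hP.map_mod_nat, ZMod.val_one'' (by omega)]
  have h1 := hL v m (fun i => Y i.val) (fun i j hij => ZMod.val_injective _
    (hinj _ (ZMod.val_lt i) _ (ZMod.val_lt j) hij)) (fun i => by
      rw [hs]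
      exact ht _)
  refine h1.trans (le_of_eq ?_)
  have h2 : ∑ i : ZMod (m + 3), ang ℓ v (Y i.val) (Y (i + 1).val) =
      ∑ i : Fin (m + 3), ang ℓ v (Y i) (Y (i + 1 : ℕ)) := by
    refine Finset.sum_congr rfl fun i _ => ?_
    rw [hs]
    rfl
  rw [h2]
  exact Fin.sum_univ_eq_sum_range (fun j => ang ℓ v (Y j) (Y (j + 1))) (m + 3)

theorem sum_two (g : ℕ → ℝ) (n : ℕ) :
    ∑ i ∈ Finset.range (2 * n), g i = ∑ j ∈ Finset.range n, (g (2 * j) + g (2 * j + 1)) := by
  induction n with
  | zero => simp
  | succ n ih =>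
    rw [Nat.mul_succ, Finset.sum_range_succ, Finset.sum_range_succ, ih, Finset.sum_range_succ]
    ring

/-- Circuits in bipartite graphs. -/
structure Bip {W : Type} (N : ℕ) [NeZero N] (u : ZMod N → W) (c : W → Prop) (n : ℕ) (U : ℕ → W) :
    Prop where
  hN : N = 2 * n
  even : ∀ j, c (U (2 * j))
  odd : ∀ j, ¬ c (U (2 * j + 1))
  step : ∀ i, ∃ j : ZMod N, U i = u j ∧ U (i + 1) = u (j + 1)
  inj : ∀ i j, U i = U j → i % N = j % N
  per : ∀ i, U (i + N) = U i
  sum : ∀ f : W → W → ℝ, ∑ i, f (u i) (u (i + 1)) = ∑ j ∈ Finset.range n,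
    (f (U (2 * j)) (U (2 * j + 1)) + f (U (2 * j + 1)) (U (2 * j + 2)))

theorem exists_bip {W : Type} {k : ℕ} (u : ZMod (k + 3) → W) (hu : Function.Injective u)
    (c : W → Prop) (hc : ∀ i, c (u i) ↔ ¬ c (u (i + 1))) :
    ∃ (n : ℕ) (U : ℕ → W), Bip (k + 3) u c n U := by
  obtain ⟨e, he⟩ : ∃ e : ℕ, c (u e) := by
    by_cases h : c (u 0)
    · exact ⟨0, by simpa using h⟩
    · refine ⟨1, ?_⟩
      by_contra h'
      exact h ((hc 0).2 (by simpa using h'))
  let U : ℕ → W := fun i => u ((i + e : ℕ) : ZMod (k + 3))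
  have hstep : ∀ i, U (i + 1) = u (((i + e : ℕ) : ZMod (k + 3)) + 1) := by
    intro i
    simp only [U]
    congr 1
    push_cast
    ring
  have halt : ∀ i, c (U i) ↔ ¬ c (U (i + 1)) := by
    intro i
    rw [hstep]
    exact hc _
  have h2 : ∀ j, c (U (2 * j)) := by
    intro j
    induction j with
    | zero => simpa [U] using he
    | succ j ih =>
      have h3 := (halt (2 * j)).1 ih
      by_contra h4
      exact h3 ((halt (2 * j + 1)).2 h4)
  have h3 : ∀ j, ¬ c (U (2 * j + 1)) := fun j => (halt _).1 (h2 j)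
  have hper : ∀ i, U (i + (k + 3)) = U i := by
    intro i
    simp only [U]
    congr 1
    push_cast
    have h4 : ((k : ZMod (k + 3)) + 3) = 0 := by
      have := ZMod.natCast_self (k + 3)
      push_cast at this
      exact this
    rw [h4, add_zero]
  obtain ⟨n, hn⟩ : ∃ n, k + 3 = 2 * n := by
    rcases Nat.even_or_odd (k + 3) with ⟨n, hn⟩ | ⟨n, hn⟩
    · exact ⟨n, by omega⟩
    · exfalso
      have h5 := h3 n
      rw [← hn, ← Nat.zero_add (k + 3), hper] at h5
      exact h5 (h2 0)
  refine ⟨n, U, hn, h2, h3, fun i => ⟨_, rfl, hstep i⟩, ?_, hper, ?_⟩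
  · intro i j hij
    have h4 := hu hij
    push_cast at h4
    have h5 := add_right_cancel h4
    exact (ZMod.natCast_eq_natCast_iff' _ _ _).1 h5
  · intro f
    have h4 : ∑ i, f (u i) (u (i + 1)) = ∑ i : ZMod (k + 3), f (U i.val) (U (i.val + 1)) := by
      rw [← Equiv.sum_comp (Equiv.addRight (e : ZMod (k + 3)))]
      refine Finset.sum_congr rfl fun i _ => ?_
      rw [hstep]
      simp only [U, Equiv.coe_addRight]
      push_cast
      rw [ZMod.natCast_zmod_val]
    have h5 : ∑ i : ZMod (k + 3), f (U i.val) (U (i.val + 1)) =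
        ∑ i ∈ Finset.range (k + 3), f (U i) (U (i + 1)) :=
      Fin.sum_univ_eq_sum_range (fun j => f (U j) (U (j + 1))) (k + 3)
    rw [h4, h5, hn, sum_two]

theorem ang_nonneg {W : Type} (ℓ : W → W → ℝ) (v u w : W) : 0 ≤ ang ℓ v u w :=
  Real.arccos_nonneg _

/-- The link condition for the subdivision. -/
theorem sd_link {ℓ : V → V → ℝ} (hM : X.Metric ℓ) (hL : X.LinkCond ℓ) :
    (sd X).LinkCond (sl ℓ) := by
  intro S k u hu ht
  have hadj : ∀ i, sAdj S (u i) := fun i => (ht i).1
  have hadj' : ∀ i, sAdj (u i) (u (i + 1)) := fun i => (ht i).2.1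
  have hc1 : ∀ i, (u i).s.card ≠ (u (i + 1)).s.card := fun i => (hadj' i).card_ne
  have hc2 : ∀ i, S.s.card ≠ (u i).s.card := fun i => (hadj i).card_ne
  have hp : ∀ i, 0 < (u i).s.card := fun i => (u i).card_pos
  have hq : ∀ i, (u i).s.card ≤ 3 := fun i => (u i).card
  have hS1 := S.card_pos
  have hS2 := S.card
  have hS3 : S.s.card = 1 ∨ S.s.card = 2 ∨ S.s.card = 3 := by omega
  -- incidences by cardinality
  have up : ∀ {a b : Smp X}, sAdj a b → a.s.card < b.s.card → a.s ⊂ b.s := by
    rintro a b (h | h) h'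
    · exact h
    · have := Finset.card_lt_card h
      omega
  rcases hS3 with hS | hS | hS
  · -- the link of a vertex
    obtain ⟨x, hx⟩ := Finset.card_eq_one.1 hS
    obtain ⟨n, U, hU⟩ := exists_bip u hu (fun a => a.s.card = 2) (fun i => by
      have := hc1 i; have := hc2 i; have := hc2 (i + 1); have := hp i; have := hp (i + 1)
      have := hq i; have := hq (i + 1)
      omega)
    have hn := hU.hN
    have hUS : ∀ i, sAdj S (U i) := by
      intro i
      obtain ⟨j, h1, -⟩ := hU.step i
      rw [h1]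
      exact hadj j
    have hUU : ∀ i, sAdj (U i) (U (i + 1)) := by
      intro i
      obtain ⟨j, h1, h2⟩ := hU.step i
      rw [h1, h2]
      exact hadj' j
    have hodd : ∀ j, (U (2 * j + 1)).s.card = 3 := by
      intro j
      have h1 := hU.odd j
      have h2 := (hUS (2 * j + 1)).card_ne
      have h3 := (U (2 * j + 1)).card_pos
      have h4 := (U (2 * j + 1)).card
      omega
    have hev : ∀ j, (U (2 * j)).s.card = 2 := hU.even
    have hxU : ∀ j, x ∈ (U (2 * j)).s := fun j =>
      (up (hUS (2 * j)) (by rw [hS, hev]; omega)).1 (by rw [hx]; simp)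
    have hex : ∀ a : Smp X, ∃ y, a.s.card = 2 → x ∈ a.s → y ≠ x ∧ a.s = {x, y} := by
      intro a
      by_cases h : a.s.card = 2 ∧ x ∈ a.s
      · obtain ⟨p, q, hpq, ha⟩ := Finset.card_eq_two.1 h.1
        have h1 := h.2
        rw [ha] at h1
        rcases Finset.mem_insert.1 h1 with rfl | h1
        · exact ⟨q, fun _ _ => ⟨hpq.symm, ha⟩⟩
        · rw [Finset.mem_singleton] at h1
          subst h1
          exact ⟨p, fun _ _ => ⟨hpq, by rw [ha, Finset.pair_comm]⟩⟩
      · exact ⟨x, fun h1 h2 => (h ⟨h1, h2⟩).elim⟩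
    choose y hy using hex
    let Y : ℕ → V := fun j => y (U (2 * j))
    have hY : ∀ j, Y j ≠ x ∧ (U (2 * j)).s = {x, Y j} := fun j => hy _ (hev j) (hxU j)
    have hYinj : ∀ i j, Y i = Y j → (2 * i) % (k + 3) = (2 * j) % (k + 3) := by
      intro i j hij
      refine hU.inj _ _ (Smp.ext ?_)
      rw [(hY i).2, (hY j).2, hij]
    have hYper : ∀ j, Y (j + n) = Y j := by
      intro j
      simp only [Y]
      rw [show 2 * (j + n) = 2 * j + (k + 3) by omega, hU.per]
    have hYne : ∀ j, Y j ≠ Y (j + 1) := by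
      intro j h
      have h1 := hYinj _ _ h
      rw [hn, Nat.mul_mod_mul_left, Nat.mul_mod_mul_left] at h1
      have h2 : 2 ≤ n := by omega
      have h3 : j % n = (j + 1) % n := by omega
      have h4 := (Nat.modEq_iff_dvd' (Nat.le_succ j)).1 h3
      rw [Nat.succ_sub (le_refl j), Nat.sub_self] at h4
      have := Nat.le_of_dvd (by omega) h4
      omega
    have hT : ∀ j, (U (2 * j + 1)).s = {x, Y j, Y (j + 1)} := by
      intro j
      have h1 := (up (hUU (2 * j)) (by rw [hev, hodd]; omega)).1
      have h2 := (up (hUU (2 * j + 1)).symm (by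
        rw [show 2 * j + 1 + 1 = 2 * (j + 1) by ring, hev, hodd]; omega)).1
      rw [show 2 * j + 1 + 1 = 2 * (j + 1) by ring] at h2
      refine (Finset.eq_of_subset_of_card_le ?_ ?_).symm
      · intro w hw
        simp only [Finset.mem_insert, Finset.mem_singleton] at hw
        rcases hw with rfl | rfl | rfl
        · exact h1 (hxU j)
        · exact h1 (by rw [(hY j).2]; simp)
        · exact h2 (by rw [(hY (j + 1)).2]; simp)
      · have h3 : x ∉ ({Y j, Y (j + 1)} : Finset V) := by
          simp only [Finset.mem_insert, Finset.mem_singleton, not_or]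
          exact ⟨(hY j).1.symm, (hY (j + 1)).1.symm⟩
        rw [hodd, Finset.card_insert_of_notMem h3, Finset.card_pair (hYne j)]
    have htri : ∀ j, X.tri x (Y j) (Y (j + 1)) := by
      intro j
      exact (U (2 * j + 1)).tri x (by rw [hT]; simp) (Y j) (by rw [hT]; simp) (Y (j + 1))
        (by rw [hT]; simp) (hY j).1.symm (hYne j) (hY (j + 1)).1.symm
    have hn3 : 3 ≤ n := by
      by_contra h
      have h2 : n = 2 := by omega
      have h3 : (U 1).s = (U 3).s := by
        have e1 := hT 0
        have e2 := hT 1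
        have e3 := hYper 0
        rw [h2] at e3
        simp only [Nat.mul_zero, Nat.zero_add, Nat.mul_one] at e1 e2 e3
        rw [show (2 + 1 : ℕ) = 3 from rfl, show (1 + 1 : ℕ) = 2 from rfl, e3] at e2
        rw [e1, e2, Finset.pair_comm]
      have h4 := hU.inj _ _ (Smp.ext h3)
      rw [hn, h2] at h4
      norm_num at h4
    rw [hU.sum (ang (sl ℓ) S)]
    have h5 : ∀ j, ang (sl ℓ) S (U (2 * j)) (U (2 * j + 1)) +
        ang (sl ℓ) S (U (2 * j + 1)) (U (2 * j + 2)) = ang ℓ x (Y j) (Y (j + 1)) := fun j =>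
      angV hM (htri j) hx (hY j).2 (hY (j + 1)).2 (hT j)
    simp only [h5]
    refine link_of_nat hL x hn3 Y hYper ?_ htri
    intro i hi j hj hij
    have h6 := hYinj _ _ hij
    rw [hn, Nat.mul_mod_mul_left, Nat.mul_mod_mul_left, Nat.mod_eq_of_lt hi, Nat.mod_eq_of_lt hj]
      at h6
    omega
  · -- the link of a midpoint
    obtain ⟨n, U, hU⟩ := exists_bip u hu (fun a => a.s.card = 1) (fun i => by
      have := hc1 i; have := hc2 i; have := hc2 (i + 1); have := hp i; have := hp (i + 1)
      have := hq i; have := hq (i + 1)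
      omega)
    have hn := hU.hN
    have hUS : ∀ i, sAdj S (U i) := by
      intro i
      obtain ⟨j, h1, -⟩ := hU.step i
      rw [h1]
      exact hadj j
    have hodd : ∀ j, (U (2 * j + 1)).s.card = 3 := by
      intro j
      have h1 := hU.odd j
      have h2 := (hUS (2 * j + 1)).card_ne
      have h3 := (U (2 * j + 1)).card_pos
      have h4 := (U (2 * j + 1)).card
      omega
    have hev : ∀ j, (U (2 * j)).s.card = 1 := hU.even
    rw [hU.sum (ang (sl ℓ) S)]
    have h5 : ∀ j, ang (sl ℓ) S (U (2 * j)) (U (2 * j + 1)) +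
        ang (sl ℓ) S (U (2 * j + 1)) (U (2 * j + 2)) = Real.pi := by
      intro j
      obtain ⟨p, hp'⟩ := Finset.card_eq_one.1 (hev j)
      obtain ⟨q, hq'⟩ := Finset.card_eq_one.1 (hev (j + 1))
      have h6 := (up (hUS (2 * j)).symm (by rw [hev, hS]; omega)).1
      have h7 := (up (hUS (2 * (j + 1))).symm (by rw [hev, hS]; omega)).1
      have h8 := (up (hUS (2 * j + 1)) (by rw [hodd, hS]; omega)).1
      have hpS : p ∈ S.s := h6 (by rw [hp']; simp)
      have hqS : q ∈ S.s := h7 (by rw [hq']; simp)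
      have hpq : p ≠ q := by
        rintro rfl
        have h9 := hU.inj _ _ (Smp.ext (hp'.trans hq'.symm))
        rw [hn, Nat.mul_mod_mul_left, Nat.mul_mod_mul_left] at h9
        have h3 : j % n = (j + 1) % n := by omega
        have h4 := (Nat.modEq_iff_dvd' (Nat.le_succ j)).1 h3
        rw [Nat.succ_sub (le_refl j), Nat.sub_self] at h4
        have := Nat.le_of_dvd (by omega) h4
        omega
      have hS' : S.s = {p, q} := by
        refine (Finset.eq_of_subset_of_card_le ?_ ?_).symm
        · intro w hw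
          rcases Finset.mem_insert.1 hw with rfl | hw
          · exact hpS
          · rw [Finset.mem_singleton.1 hw]
            exact hqS
        · rw [hS, Finset.card_pair hpq]
      exact angM hM hpq hp' hq' hS' h8
    simp only [h5]
    rw [Finset.sum_const, Finset.card_range, nsmul_eq_mul]
    have h2 : (2 : ℝ) ≤ n := by
      have : 2 ≤ n := by omega
      exact_mod_cast this
    exact mul_le_mul_of_nonneg_right h2 Real.pi_pos.le
  · -- the link of a barycenter
    obtain ⟨n, U, hU⟩ := exists_bip u hu (fun a => a.s.card = 1) (fun i => by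
      have := hc1 i; have := hc2 i; have := hc2 (i + 1); have := hp i; have := hp (i + 1)
      have := hq i; have := hq (i + 1)
      omega)
    have hn := hU.hN
    have hUS : ∀ i, sAdj S (U i) := by
      intro i
      obtain ⟨j, h1, -⟩ := hU.step i
      rw [h1]
      exact hadj j
    have hUU : ∀ i, sAdj (U i) (U (i + 1)) := by
      intro i
      obtain ⟨j, h1, h2⟩ := hU.step i
      rw [h1, h2]
      exact hadj' j
    have hodd : ∀ j, (U (2 * j + 1)).s.card = 2 := by
      intro j
      have h1 := hU.odd j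
      have h2 := (hUS (2 * j + 1)).card_ne
      have h3 := (U (2 * j + 1)).card_pos
      have h4 := (U (2 * j + 1)).card
      omega
    have hev : ∀ j, (U (2 * j)).s.card = 1 := hU.even
    choose Y hY using fun j => Finset.card_eq_one.1 (hev j)
    have hYinj : ∀ i j, Y i = Y j → i % n = j % n := by
      intro i j hij
      have := hU.inj _ _ (Smp.ext ((hY i).trans (by rw [hij, ← hY j])))
      rw [hn, Nat.mul_mod_mul_left, Nat.mul_mod_mul_left] at this
      omega
    have hYper : ∀ j, Y (j + n) = Y j := by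
      intro j
      have h1 : U (2 * (j + n)) = U (2 * j) := by
        rw [show 2 * (j + n) = 2 * j + (k + 3) by omega, hU.per]
      have h2 := hY (j + n)
      rw [h1, hY j] at h2
      exact (Finset.singleton_injective h2).symm
    have hYS : ∀ j, Y j ∈ S.s := fun j =>
      (up (hUS (2 * j)).symm (by rw [hev, hS]; omega)).1 (by rw [hY]; simp)
    have hYne : ∀ j, Y j ≠ Y (j + 1) := by
      intro j h
      have h3 := hYinj _ _ h
      have h4 := (Nat.modEq_iff_dvd' (Nat.le_succ j)).1 h3
      rw [Nat.succ_sub (le_refl j), Nat.sub_self] at h4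
      have := Nat.le_of_dvd (by omega) h4
      omega
    have hT : ∀ j, (U (2 * j + 1)).s = {Y j, Y (j + 1)} := by
      intro j
      have h1 := (up (hUU (2 * j)) (by rw [hev, hodd]; omega)).1
      have h2 := (up (hUU (2 * j + 1)).symm (by
        rw [show 2 * j + 1 + 1 = 2 * (j + 1) by ring, hev, hodd]; omega)).1
      rw [show 2 * j + 1 + 1 = 2 * (j + 1) by ring] at h2
      refine (Finset.eq_of_subset_of_card_le ?_ ?_).symm
      · intro w hw
        simp only [Finset.mem_insert, Finset.mem_singleton] at hw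
        rcases hw with rfl | rfl
        · exact h1 (by rw [hY j]; simp)
        · exact h2 (by rw [hY (j + 1)]; simp)
      · rw [hodd, Finset.card_pair (hYne j)]
    have hn3 : 3 ≤ n := by
      by_contra h
      have h2 : n = 2 := by omega
      have h3 : (U 1).s = (U 3).s := by
        have e1 := hT 0
        have e2 := hT 1
        have e3 := hYper 0
        rw [h2] at e3
        simp only [Nat.mul_zero, Nat.zero_add, Nat.mul_one] at e1 e2 e3
        rw [show (2 + 1 : ℕ) = 3 from rfl, show (1 + 1 : ℕ) = 2 from rfl, e3] at e2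
        rw [e1, e2, Finset.pair_comm]
      have h4 := hU.inj _ _ (Smp.ext h3)
      rw [hn, h2] at h4
      norm_num at h4
    have n01 : Y 0 ≠ Y 1 := hYne 0
    have n12 : Y 1 ≠ Y 2 := hYne 1
    have n23 : Y 2 ≠ Y 3 := hYne 2
    have n02 : Y 0 ≠ Y 2 := by
      intro h
      have h3 := hYinj _ _ h
      rw [Nat.zero_mod, Nat.mod_eq_of_lt (by omega)] at h3
      omega
    have n13 : Y 1 ≠ Y 3 := by
      intro h
      have h3 := hYinj _ _ h
      have h4 := (Nat.modEq_iff_dvd' (show 1 ≤ 3 by omega)).1 h3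
      have := Nat.le_of_dvd (by omega) h4
      omega
    have hS' : S.s = {Y 0, Y 1, Y 2} := by
      refine (Finset.eq_of_subset_of_card_le ?_ ?_).symm
      · intro w hw
        simp only [Finset.mem_insert, Finset.mem_singleton] at hw
        rcases hw with rfl | rfl | rfl
        · exact hYS 0
        · exact hYS 1
        · exact hYS 2
      · have h3 : Y 0 ∉ ({Y 1, Y 2} : Finset V) := by
          simp only [Finset.mem_insert, Finset.mem_singleton, not_or]
          exact ⟨n01, n02⟩
        rw [hS, Finset.card_insert_of_notMem h3, Finset.card_pair n12]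
    have e30 : Y 3 = Y 0 := by
      have h3 := hYS 3
      rw [hS'] at h3
      simp only [Finset.mem_insert, Finset.mem_singleton] at h3
      rcases h3 with h3 | h3 | h3
      · exact h3
      · exact (n13 h3.symm).elim
      · exact (n23 h3.symm).elim
    rw [hU.sum (ang (sl ℓ) S)]
    have h5 : ∑ j ∈ Finset.range 3, (ang (sl ℓ) S (U (2 * j)) (U (2 * j + 1)) +
        ang (sl ℓ) S (U (2 * j + 1)) (U (2 * j + 2))) = 2 * Real.pi := by
      rw [Finset.sum_range_succ, Finset.sum_range_succ, Finset.sum_range_succ, Finset.sum_range_zero,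
        zero_add]
      have h6 : U 6 = U 0 := by
        apply Smp.ext
        rw [show (6 : ℕ) = 2 * 3 from rfl, hY 3, show (0 : ℕ) = 2 * 0 from rfl, hY 0, e30]
      have h7 := angC hM n01 n12 n02 hS' (hY 0) (hY 1) (hY 2) (hT 0) (hT 1) (F := U (2 * 2 + 1))
        (by rw [hT 2, show 2 + 1 = 3 from rfl, e30, Finset.pair_comm])
      simp only [Nat.mul_zero, Nat.zero_add, Nat.mul_one] at h7 ⊢
      rw [show 2 * 2 + 2 = 6 from rfl, h6]
      exact h7
    rw [← h5]
    refine Finset.sum_le_sum_of_subset_of_nonneg ?_ ?_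
    · intro j hj
      rw [Finset.mem_range] at hj ⊢
      omega
    · intro j _ _
      exact add_nonneg (ang_nonneg _ _ _ _) (ang_nonneg _ _ _ _)

end Pool.Agent.Helper13.GT
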