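import Pool.Agent.Helper13.GT.SdConn
import Pool.Agent.Helper13.GT.SdLink
import Pool.Agent.Helper13.GT.Main

/-!
# Groups acting on piecewise Euclidean complexes of dimension two with the link condition

The second barycentric subdivision has types.
-/

set_option autoImplicit false

namespace Pool.Agent.Helper13.GT

open Relation Pool.Agent.Helper29.BA Pool.Agent.Helper29.PA Pool.Agent.Helper3.FJ
  Pool.Agent.Helper3.FJ.Cpx

open scoped Classical

variable {V : Type} {X : Cpx V}

/-- The types of the simplices of a coloured complex. -/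
def ty (κ : V → ℕ) (a : Smp X) : Finset ℕ := a.s.image κ

section

variable {κ : V → ℕ} (hκ : ∀ u v, X.adj u v → κ u ≠ κ v)

include hκ

theorem ty_inj (a : Smp X) : Set.InjOn κ a.s := by
  intro u hu v hv h
  by_contra hne
  exact hκ u v (a.adj u hu v hv hne) h

theorem ty_lt {a b : Smp X} (h : a.s ⊂ b.s) : ty κ a ⊂ ty κ b := by
  refine Finset.ssubset_iff_subset_ne.2 ⟨Finset.image_subset_image h.1, fun h' => ?_⟩
  have h1 : (ty κ a).card = (ty κ b).card := by rw [h']
  unfold ty at h1
  rw [Finset.card_image_of_injOn (ty_inj hκ a), Finset.card_image_of_injOn (ty_inj hκ b)] at h1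
  exact (Finset.card_lt_card h).ne h1

theorem sd_pe {ℓ : V → V → ℝ} (hM : X.Metric ℓ) (hL : X.LinkCond ℓ) :
    Pe (sd X) (sl ℓ) (ty κ) where
  met := sd_metric hM
  link := sd_link hM hL
  cmp := by
    rintro a b (h | h)
    · exact Or.inl (ty_lt hκ h)
    · exact Or.inr (ty_lt hκ h)
  un := by
    intro a a' b h h' he hlt
    have h1 : a.s ⊂ b.s := by
      rcases h with h | h
      · exact h
      · exact (ssubset_irrefl _ ((ty_lt hκ h).trans hlt)).elim
    have h2 : a'.s ⊂ b.s := by
      rcases h' with h' | h'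
      · exact h'
      · exact (ssubset_irrefl _ ((ty_lt hκ h').trans (he ▸ hlt))).elim
    have key : ∀ {c d : Smp X}, c.s ⊂ b.s → d.s ⊂ b.s → ty κ c = ty κ d → c.s ⊆ d.s := by
      intro c d hc hd hcd x hx
      have h3 : κ x ∈ ty κ d := by
        rw [← hcd]
        exact Finset.mem_image_of_mem _ hx
      obtain ⟨y, hy, hxy⟩ := Finset.mem_image.1 h3
      rw [← ty_inj hκ b (hd.1 hy) (hc.1 hx) hxy]
      exact hy
    exact Smp.ext (subset_antisymm (key h1 h2 he) (key h2 h1 he.symm))

end

theorem sd_actsC {G : Type} [Group G] [MulAction G V] [hA : Fact (X.Acts G)] {ℓ : V → V → ℝ}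
    (hI : ∀ (g : G) u v, ℓ (g • u) (g • v) = ℓ u v) {κ : V → ℕ} (hκ : ∀ (g : G) v, κ (g • v) = κ v) :
    ActsC G (sd X) (sl ℓ) (ty κ) where
  acts := (sdActs (X := X) (G := G)).out
  iso := sl_smul hI
  inv := by
    intro g a
    ext n
    unfold ty
    simp only [Finset.mem_image]
    constructor
    · rintro ⟨x, hx, rfl⟩
      obtain ⟨y, hy, rfl⟩ := mem_smul_s.1 hx
      exact ⟨y, hy, (hκ g y).symm⟩
    · rintro ⟨y, hy, rfl⟩
      exact ⟨g • y, smul_mem_smul_s.2 hy, hκ g y⟩

/-- **Theorem.** Let `G` act by isometries on a simply connected piecewise Euclidean complex of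
dimension two with the link condition. If for each finite set of simplices there is a homomorphism
to a group of the class which is injective on the stabilizers of these simplices, then `G` is in
the class. -/
theorem mainSd (geo : GeoU) (loc : LocInput) {C : ∀ (G : Type) [Group G], Prop} (hC : CatClass C)
    (hE : ExtClass C) {G : Type} [Group G] [MulAction G V] {ℓ : V → V → ℝ} (hM : X.Metric ℓ)
    (hL : X.LinkCond ℓ) (hX : X.SimplyConn) (hA : X.Acts G)
    (hI : ∀ (g : G) u v, ℓ (g • u) (g • v) = ℓ u v)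
    (hQ : ∀ K : Finset (Smp X), ∃ (Q : Type) (_ : Group Q) (f : G →* Q), C Q ∧
      ∀ a ∈ K, ∀ g : G, (∀ x ∈ a.s, g • x ∈ a.s) → f g = 1 → g = 1) : C G := by
  have : Fact (X.Acts G) := ⟨hA⟩
  have hM1 := sd_metric hM
  have hL1 := sd_link hM hL
  have hX1 := sd_simplyConn hX
  let κ : Smp X → ℕ := fun a => a.s.card
  have hκ : ∀ a b, (sd X).adj a b → κ a ≠ κ b := fun a b h => sAdj.card_ne h
  have hP := sd_pe hκ hM1 hL1
  have hX2 := sd_simplyConn hX1
  have hA2 : ActsC G (sd (sd X)) (sl (sl ℓ)) (ty κ) :=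
    sd_actsC (sl_smul hI) (κ := κ) (fun g a => card_smul_s g a)
  refine mainG geo loc hC hE hP hA2 hX2 fun K => ?_
  obtain ⟨Q, hQ', f, hCQ, hf⟩ := hQ (K.image fun F => F.ne.choose)
  refine ⟨Q, hQ', f, hCQ, fun F hF g hg h1 => ?_⟩
  refine hf F.ne.choose (Finset.mem_image_of_mem _ hF) g ?_ h1
  have h2 : F.ne.choose ∈ F.s := F.ne.choose_spec
  have h3 : g • F.ne.choose ∈ F.s := by
    have := smul_mem_smul_s (g := g) (a := F) (x := F.ne.choose)
    rw [hg] at this
    exact this.2 h2
  have h4 : g • F.ne.choose = F.ne.choose := by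
    by_contra hne
    have h5 := F.adj _ h3 _ h2 hne
    exact sAdj.card_ne h5 (card_smul_s g _)
  intro x hx
  have h5 := smul_mem_smul_s (g := g) (a := F.ne.choose) (x := x)
  rw [h4] at h5
  exact h5.2 hx

end Pool.Agent.Helper13.GT
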