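import Pool.Agent.Helper13.GT.Quo

/-!
# Finitely many shapes
-/

set_option autoImplicit false

namespace Pool.Agent.Helper13.GT

open Relation Pool.Agent.Helper29.BA Pool.Agent.Helper29.PA Pool.Agent.Helper3.FJ
  Pool.Agent.Helper3.FJ.Cpx

variable {V : Type} {X : Cpx V} {ℓ : V → V → ℝ} {τ : V → Finset ℕ} {G : Type} [Group G]
  [MulAction G V]

/-- The angles are positive. -/
theorem ang_pos (hM : X.Metric ℓ) {u v w : V} (h : X.tri u v w) : 0 < ang ℓ u v w := by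
  unfold ang
  rw [Real.arccos_pos]
  have a0 : 0 < ℓ u v := hM.pos _ _ (X.tri_adj _ _ _ h)
  have b0 : 0 < ℓ u w := hM.pos _ _ (X.adj_symm _ _ (adj3 h))
  have t1 := hM.tri _ _ _ h
  have t2 := hM.tri _ _ _ (X.tri_flip _ _ _ h)
  have t3 := hM.tri _ _ _ (X.tri_flip _ _ _ (X.tri_rot _ _ _ (X.tri_rot _ _ _ h)))
  have e1 := hM.symm v u
  have e2 := hM.symm w u
  have e3 := hM.symm w v
  rw [div_lt_one (by positivity)]
  have h1 : ℓ u v - ℓ u w < ℓ v w := by linarith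
  have h2 : ℓ u w - ℓ u v < ℓ v w := by linarith
  nlinarith

theorem shapes_of (hA : ActsC G X ℓ τ) (hco : X.Cocompact G) : Shapes X ℓ := by
  obtain ⟨S, hS, -, h2, -⟩ := hco
  refine (hS.image fun s : V × V × V => ℓ s.1 s.2.2).subset ?_
  rintro x ⟨u, v, h, rfl⟩
  obtain ⟨g, hg⟩ := h2 u v h
  exact ⟨_, hg, hA.iso g _ _⟩

theorem ang_smul (hA : ActsC G X ℓ τ) (g : G) (u v w : V) :
    ang ℓ (g • u) (g • v) (g • w) = ang ℓ u v w := by
  unfold ang
  rw [hA.iso, hA.iso, hA.iso]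

/-- The angles are bounded below. -/
theorem exists_big (hM : X.Metric ℓ) (hA : ActsC G X ℓ τ) (hco : X.Cocompact G) (B : ℝ) :
    ∃ N : ℕ, ∀ u v w, X.tri u v w → B < N * ang ℓ u v w := by
  classical
  obtain ⟨S, hS, -, -, h3⟩ := hco
  have hex : ∀ s : V × V × V, ∃ N : ℕ, X.tri s.1 s.2.1 s.2.2 → B < N * ang ℓ s.1 s.2.1 s.2.2 := by
    intro s
    by_cases h : X.tri s.1 s.2.1 s.2.2
    · obtain ⟨N, hN⟩ := exists_nat_gt (B / ang ℓ s.1 s.2.1 s.2.2)
      refine ⟨N, fun _ => ?_⟩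
      rwa [div_lt_iff₀ (ang_pos hM h)] at hN
    · exact ⟨0, fun h' => (h h').elim⟩
  choose n hn using hex
  obtain ⟨N, hN⟩ := (hS.image n).bddAbove
  refine ⟨N, fun u v w h => ?_⟩
  obtain ⟨g, hg⟩ := h3 u v w h
  have h4 := hA.acts.2 g _ _ _ h
  have h5 := hn (g • u, g • v, g • w) h4
  have h6 : n (g • u, g • v, g • w) ≤ N := hN (Set.mem_image_of_mem _ hg)
  simp only [ang_smul hA] at h5
  refine h5.trans_le (mul_le_mul_of_nonneg_right ?_ (ang_pos hM h).le)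
  exact_mod_cast h6

end Pool.Agent.Helper13.GT
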